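import Mathlib
set_option autoImplicit false

/-!
# Brascamp-Lieb data of rank at most two

A datum on `ℝ^n` is a finite family of linear maps `π` of `ℝ^n` onto planes and lines, with
weights. The planar maps are `ξ ↦ (⟪x i, ξ⟫, ⟪y i, ξ⟫)` with weights `p i`, the linear ones are
`ξ ↦ ⟪z j, ξ⟫` with weights `s j`.
-/

namespace Pool.Agent.H972BL

open MeasureTheory Set
open scoped ENNReal NNReal RealInnerProductSpace

/-- Euclidean space -/
abbrev E (n : ℕ) := EuclideanSpace ℝ (Fin n)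

/-- a family of `a` planar maps `ξ ↦ (⟪x i, ξ⟫, ⟪y i, ξ⟫)` with weights `p i` and of `b` linear
maps `ξ ↦ ⟪z j, ξ⟫` with weights `s j` -/
structure Dat (n a b : ℕ) where
  /-- first coordinates of the planar maps -/
  x : Fin a → E n
  /-- second coordinates of the planar maps -/
  y : Fin a → E n
  /-- linear maps -/
  z : Fin b → E n
  /-- weights of the planar maps -/
  p : Fin a → ℝ
  /-- weights of the linear maps -/
  s : Fin b → ℝ

variable {n a b : ℕ}

/-- the planar map number `i` -/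
noncomputable def Dat.planar (D : Dat n a b) (i : Fin a) (ξ : E n) : ℝ × ℝ :=
  (⟪D.x i, ξ⟫, ⟪D.y i, ξ⟫)

/-- the linear map number `j` -/
noncomputable def Dat.linear (D : Dat n a b) (j : Fin b) (ξ : E n) : ℝ := ⟪D.z j, ξ⟫

/-- the set of all `ξ` whose images under the planar maps lie in the sets `A i` and whose images
under the linear maps lie in the sets `B j` -/
def Dat.set (D : Dat n a b) (A : Fin a → Set (ℝ × ℝ)) (B : Fin b → Set ℝ) : Set (E n) :=
  {ξ | (∀ i, D.planar i ξ ∈ A i) ∧ ∀ j, D.linear j ξ ∈ B j}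

/-- the product of the functions `u i` of the planar maps and `w j` of the linear maps -/
noncomputable def Dat.weight (D : Dat n a b) (u : Fin a → ℝ × ℝ → ℝ≥0∞) (w : Fin b → ℝ → ℝ≥0∞)
    (ξ : E n) : ℝ≥0∞ :=
  (∏ i, u i (D.planar i ξ)) * ∏ j, w j (D.linear j ξ)

/-- the planar maps are onto `ℝ²`, the linear ones are not zero, the weights are positive, and the
homogeneity condition `2 ∑ p i + ∑ s j = n` holds -/
structure Dat.Admissible (D : Dat n a b) : Prop where
  planar : ∀ i, LinearIndependent ℝ ![D.x i, D.y i]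
  linear : ∀ j, D.z j ≠ 0
  p_pos : ∀ i, 0 < D.p i
  s_pos : ∀ j, 0 < D.s j
  hom : 2 * ∑ i, D.p i + ∑ j, D.s j = n

/-- the Brascamp-Lieb inequality with constant `c`, for sets:
`|{ξ : π_i ξ ∈ A i, λ_j ξ ∈ B j}| ≤ c ∏ |A i|^(p i) ∏ |B j|^(s j)` -/
def Dat.BL (D : Dat n a b) (c : ℝ≥0∞) : Prop :=
  ∀ (A : Fin a → Set (ℝ × ℝ)) (B : Fin b → Set ℝ), (∀ i, MeasurableSet (A i)) →
    (∀ j, MeasurableSet (B j)) →
    volume (D.set A B) ≤ c * ((∏ i, volume (A i) ^ D.p i) * ∏ j, volume (B j) ^ D.s j)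

/-- the weak `L^(1/a)` norm `sup_{s > 0} s |{u > s}|^a` -/
noncomputable def weakNorm {Ω : Type*} [MeasureSpace Ω] (a : ℝ) (u : Ω → ℝ≥0∞) : ℝ≥0∞ :=
  ⨆ s : {s : ℝ // 0 < s}, ENNReal.ofReal s * volume {p | ENNReal.ofReal s < u p} ^ a

/-- the datum of a basis `v` of `ℝ^n` whose members are grouped by `σ` in `a` pairs and `b` single
vectors, all weights one -/
def Dat.ofBasis (v : Fin n → E n) (σ : (Fin a ⊕ Fin a) ⊕ Fin b ≃ Fin n) : Dat n a b where
  x i := v (σ (Sum.inl (Sum.inl i)))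
  y i := v (σ (Sum.inl (Sum.inr i)))
  z j := v (σ (Sum.inr j))
  p _ := 1
  s _ := 1

/-- the datum of a graph on the coordinates of a basis `v` of `ℝ^n`: the planar maps are the pairs
of coordinates `I i`, `J i`, with weights `p i`, the linear ones the coordinates `K j`, with weights
`s j` -/
def Dat.ofGraph (v : Fin n → E n) (I J : Fin a → Fin n) (K : Fin b → Fin n) (p : Fin a → ℝ)
    (s : Fin b → ℝ) : Dat n a b where
  x i := v (I i)
  y i := v (J i)
  z j := v (K j)
  p := p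
  s := s

/-- the total weight at each coordinate is one (a fractional perfect matching) -/
structure TotalOne (I J : Fin a → Fin n) (K : Fin b → Fin n) (p : Fin a → ℝ) (s : Fin b → ℝ) :
    Prop where
  ne : ∀ i, I i ≠ J i
  p_pos : ∀ i, 0 < p i
  s_pos : ∀ j, 0 < s j
  total : ∀ t, ∑ i with I i = t ∨ J i = t, p i + ∑ j with K j = t, s j = 1

/-- the volume of the unit cell of the coordinates `⟪v t, ξ⟫` (their Jacobian) -/
noncomputable def cell (v : Fin n → E n) : ℝ≥0∞ :=
  volume {ξ : E n | ∀ t, ⟪v t, ξ⟫ ∈ Ioc (0 : ℝ) 1}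

end Pool.Agent.H972BL
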