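import Mathlib
import Pool.Agent.helper972_bl.Defs
set_option autoImplicit false

/-! Classes of functions with estimates on cylinders over planar sets and on slabs. -/

namespace Pool.Agent.H972BL

open MeasureTheory Set
open scoped ENNReal RealInnerProductSpace

variable {N : ℕ}

/-- a class of pairs (function, square of its norm) with the cylinder and the slab estimates -/
structure Good (Φ : (E (N + 2) → ℝ≥0∞) → ℝ → Prop) : Prop where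
  meas : ∀ F μ, Φ F μ → Measurable F
  nonneg : ∀ F μ, Φ F μ → 0 ≤ μ
  triv : ∃ C : ℝ, 0 < C ∧ ∀ F μ, Φ F μ → ∀ ξ, F ξ ^ 2 ≤ ENNReal.ofReal (C * μ)
  cyl : ∀ τ : ℝ, 1 / 2 < τ → τ < 1 → ∃ C : ℝ, 0 < C ∧ ∀ F μ, Φ F μ →
    ∀ (v w : E (N + 2)), ‖v‖ = 1 → ‖w‖ = 1 → ⟪v, w⟫ = 0 →
    ∀ (A : Set (ℝ × ℝ)) (T : Set (E (N + 2))), MeasurableSet A → MeasurableSet T →
    volume A ≠ ∞ → (∀ ξ ∈ T, (⟪v, ξ⟫, ⟪w, ξ⟫) ∈ A) →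
    ∫⁻ ξ in T, F ξ ^ 2 ≤ ENNReal.ofReal (C * μ) * volume A ^ τ
  slab : ∀ ε : ℝ, 0 < ε → ε ≤ 1 / 4 → ∃ C : ℝ, 0 < C ∧ ∀ F μ, Φ F μ →
    ∀ v : E (N + 2), ‖v‖ = 1 → ∀ (B : Set ℝ) (T : Set (E (N + 2))), MeasurableSet B →
    MeasurableSet T → (∀ ξ ∈ T, ⟪v, ξ⟫ ∈ B) → ∀ b V : ℝ, 0 < b → 0 < V →
    volume B = ENNReal.ofReal b → volume T ≤ ENNReal.ofReal V →
    ∫⁻ ξ in T, F ξ ^ 2 ≤ ENNReal.ofReal (C * μ * (b ^ (1 - ε) * V ^ ε))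

end Pool.Agent.H972BL
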