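import Mathlib
import Pool.Agent.helper972_pb.Z2
import Pool.Agent.helper972_bl.Good
set_option autoImplicit false

/-! Interpolation for Brascamp-Lieb data of rank at most two, sets. -/

namespace Pool.Agent.H972BL

open MeasureTheory Set Filter Topology
open scoped ENNReal NNReal RealInnerProductSpace
open Pool.Agent.H972PL (ex)
open Pool.Agent.H972PB (ofReal_prod_rpow prod_top')

variable {N k m : ℕ}

/-- the interpolation, in real numbers -/
theorem log_interpW {k m : ℕ} (I K c V τ ε g : ℝ) (a : Fin k → ℝ) (b : Fin m → ℝ)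
    (x : Fin k → ℝ) (z : Fin m → ℝ) (p : Fin k → ℝ) (s : Fin m → ℝ) (hI : 0 < I) (hK : 0 < K) (hc : 0 < c)
    (ha : ∀ i, 0 < a i) (hb : ∀ j, 0 < b j) (hV : V = c * (∏ i, a i ^ p i) * ∏ j, b j ^ s j)
    (hτ : 0 < τ) (hε1 : ε < 1)
    (hP : ∀ i, I ≤ K * a i ^ τ) (hL : ∀ j, I ≤ K * (b j ^ (1 - ε) * V ^ ε)) (h0 : I ≤ K * V)
    (hx : ∀ i, p i * g ≤ x i) (hz : ∀ j, s j * g ≤ z j)
    (ht : ε * ((∑ j, (z j - s j * g)) / (1 - ε)) ≤ g)
    (hsum : (∑ i, (x i - p i * g)) / τ + ∑ j, (z j - s j * g) = 1 - g) :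
    I ≤ K * c ^ g * (∏ i, a i ^ x i) * ∏ j, b j ^ z j := by
  have hprod : 0 < ∏ i, a i ^ p i := Finset.prod_pos fun i _ => Real.rpow_pos_of_pos (ha i) _
  have hprodb : 0 < ∏ j, b j ^ s j := Finset.prod_pos fun j _ => Real.rpow_pos_of_pos (hb j) _
  have hV0 : 0 < V := by rw [hV]; positivity
  have h1ε : 0 < 1 - ε := by linarith
  have lV : Real.log V = Real.log c + ∑ i, p i * Real.log (a i) + ∑ j, s j * Real.log (b j) := by
    rw [hV, Real.log_mul (by positivity) (by positivity), Real.log_mul (by positivity) (by positivity),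
      Real.log_prod fun i _ => (Real.rpow_pos_of_pos (ha i) _).ne',
      Real.log_prod fun j _ => (Real.rpow_pos_of_pos (hb j) _).ne']
    simp_rw [fun i => Real.log_rpow (ha i) (p i), fun j => Real.log_rpow (hb j) (s j)]
  have lP : ∀ i, Real.log I ≤ Real.log K + τ * Real.log (a i) := by
    intro i
    have h1 := Real.log_le_log hI (hP i)
    have h2 := ha i
    rwa [Real.log_mul hK.ne' (by positivity), Real.log_rpow h2] at h1
  have lL : ∀ j, Real.log I ≤ Real.log K + ((1 - ε) * Real.log (b j) + ε * Real.log V) := by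
    intro j
    have h1 := Real.log_le_log hI (hL j)
    have h2 := hb j
    rwa [Real.log_mul hK.ne' (by positivity), Real.log_mul (by positivity) (by positivity),
      Real.log_rpow h2, Real.log_rpow hV0] at h1
  have l0 : Real.log I ≤ Real.log K + Real.log V := by
    have h1 := Real.log_le_log hI h0
    rwa [Real.log_mul hK.ne' hV0.ne'] at h1
  set SL : ℝ := ∑ j, (z j - s j * g) with hSL
  set SP : ℝ := ∑ i, (x i - p i * g) with hSP
  set t : ℝ := g - ε * (SL / (1 - ε)) with htd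
  have ht0 : 0 ≤ t := by linarith
  have htot : SP / τ + SL / (1 - ε) + t = 1 := by
    rw [htd]
    have : SL / (1 - ε) - ε * (SL / (1 - ε)) = SL := by
      field_simp
    linarith
  have s1 : SP / τ * Real.log I ≤ SP / τ * Real.log K + ∑ i, (x i - p i * g) * Real.log (a i) := by
    have : ∀ i ∈ Finset.univ, (x i - p i * g) / τ * Real.log I ≤
        (x i - p i * g) / τ * Real.log K + (x i - p i * g) * Real.log (a i) := by
      intro i _
      have h1 : 0 ≤ (x i - p i * g) / τ := div_nonneg (by linarith [hx i]) hτ.le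
      have h2 := mul_le_mul_of_nonneg_left (lP i) h1
      have h3 : (x i - p i * g) / τ * (τ * Real.log (a i)) = (x i - p i * g) * Real.log (a i) := by
        field_simp
      calc _ ≤ _ := h2
        _ = _ := by rw [mul_add, h3]
    have h4 := Finset.sum_le_sum this
    rw [← Finset.sum_mul, Finset.sum_add_distrib, ← Finset.sum_mul, ← Finset.sum_div] at h4
    exact h4
  have s2 : SL / (1 - ε) * Real.log I ≤ SL / (1 - ε) * Real.log K +
      (∑ j, (z j - s j * g) * Real.log (b j) + SL / (1 - ε) * (ε * Real.log V)) := by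
    have : ∀ j ∈ Finset.univ, (z j - s j * g) / (1 - ε) * Real.log I ≤
        (z j - s j * g) / (1 - ε) * Real.log K + ((z j - s j * g) * Real.log (b j) +
          (z j - s j * g) / (1 - ε) * (ε * Real.log V)) := by
      intro j _
      have h1 : 0 ≤ (z j - s j * g) / (1 - ε) := div_nonneg (by linarith [hz j]) h1ε.le
      have h2 := mul_le_mul_of_nonneg_left (lL j) h1
      have h3 : (z j - s j * g) / (1 - ε) * ((1 - ε) * Real.log (b j)) = (z j - s j * g) * Real.log (b j) := by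
        field_simp
      calc _ ≤ _ := h2
        _ = _ := by rw [mul_add, mul_add, h3]
    have h4 := Finset.sum_le_sum this
    rw [← Finset.sum_mul, Finset.sum_add_distrib, Finset.sum_add_distrib, ← Finset.sum_mul,
      ← Finset.sum_mul, ← Finset.sum_div] at h4
    exact h4
  have s3 : t * Real.log I ≤ t * Real.log K + t * Real.log V := by
    have := mul_le_mul_of_nonneg_left l0 ht0
    rwa [mul_add] at this
  have key : Real.log I ≤ Real.log K + g * Real.log c + ∑ i, x i * Real.log (a i) +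
      ∑ j, z j * Real.log (b j) := by
    have e1 : Real.log I = (SP / τ + SL / (1 - ε) + t) * Real.log I := by rw [htot, one_mul]
    have e2 : (SP / τ + SL / (1 - ε) + t) * Real.log K = Real.log K := by rw [htot, one_mul]
    have e3 : SL / (1 - ε) * (ε * Real.log V) + t * Real.log V = g * Real.log V := by
      rw [htd]; ring
    have e4 : ∑ i, (x i - p i * g) * Real.log (a i) =
        ∑ i, x i * Real.log (a i) - g * ∑ i, p i * Real.log (a i) := by
      rw [Finset.mul_sum, ← Finset.sum_sub_distrib]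
      exact Finset.sum_congr rfl fun i _ => by ring
    have e5 : ∑ j, (z j - s j * g) * Real.log (b j) =
        ∑ j, z j * Real.log (b j) - g * ∑ j, s j * Real.log (b j) := by
      rw [Finset.mul_sum, ← Finset.sum_sub_distrib]
      exact Finset.sum_congr rfl fun i _ => by ring
    have e6 : g * Real.log V = g * Real.log c + g * ∑ i, p i * Real.log (a i) +
        g * ∑ j, s j * Real.log (b j) := by
      rw [lV]; ring
    rw [e1]
    rw [e4] at s1
    rw [e5] at s2
    nlinarith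
  have hR : 0 < K * c ^ g * (∏ i, a i ^ x i) * ∏ j, b j ^ z j := by
    have p1 : 0 < ∏ i, a i ^ x i := Finset.prod_pos fun i _ => Real.rpow_pos_of_pos (ha i) _
    have p2 : 0 < ∏ j, b j ^ z j := Finset.prod_pos fun j _ => Real.rpow_pos_of_pos (hb j) _
    positivity
  rw [← Real.log_le_log_iff hI hR]
  have p1 : 0 < ∏ i, a i ^ x i := Finset.prod_pos fun i _ => Real.rpow_pos_of_pos (ha i) _
  have p2 : 0 < ∏ j, b j ^ z j := Finset.prod_pos fun j _ => Real.rpow_pos_of_pos (hb j) _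
  rw [Real.log_mul (by positivity) p2.ne', Real.log_mul (by positivity) p1.ne',
    Real.log_mul hK.ne' (by positivity), Real.log_rpow hc,
    Real.log_prod fun i _ => (Real.rpow_pos_of_pos (ha i) _).ne',
    Real.log_prod fun j _ => (Real.rpow_pos_of_pos (hb j) _).ne']
  have e7 : ∀ i, Real.log (a i ^ x i) = x i * Real.log (a i) := fun i => Real.log_rpow (ha i) _
  have e8 : ∀ j, Real.log (b j ^ z j) = z j * Real.log (b j) := fun j => Real.log_rpow (hb j) _
  simp_rw [e7, e8]
  exact key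

/-- normalised data: orthonormal pairs, unit vectors -/
structure ND {n a b : ℕ} (D : Dat n a b) : Prop where
  xu : ∀ i, ‖D.x i‖ = 1
  yu : ∀ i, ‖D.y i‖ = 1
  xy : ∀ i, ⟪D.x i, D.y i⟫ = 0
  zu : ∀ j, ‖D.z j‖ = 1
  pp : ∀ i, 0 < D.p i
  sp : ∀ j, 0 < D.s j
  hom : 2 * ∑ i, D.p i + ∑ j, D.s j = n

theorem set_meas {n a b : ℕ} (D : Dat n a b) (A : Fin a → Set (ℝ × ℝ)) (B : Fin b → Set ℝ)
    (hA : ∀ i, MeasurableSet (A i)) (hB : ∀ j, MeasurableSet (B j)) :
    MeasurableSet (D.set A B) := by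
  have h1 : D.set A B = (⋂ i, {ξ | D.planar i ξ ∈ A i}) ∩ ⋂ j, {ξ | D.linear j ξ ∈ B j} := by
    ext ξ
    simp [Dat.set]
  rw [h1]
  refine (MeasurableSet.iInter fun i => ?_).inter (MeasurableSet.iInter fun j => ?_)
  · have : Measurable (D.planar i) := by unfold Dat.planar; fun_prop
    exact this (hA i)
  · have : Measurable (D.linear j) := by unfold Dat.linear; fun_prop
    exact this (hB j)

/-- Brascamp-Lieb sets, general exponents -/
theorem setsx (Φ : (E (N + 2) → ℝ≥0∞) → ℝ → Prop) (hΦ : Good Φ) (τ ε : ℝ) (h1 : 1 / 2 < τ)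
    (h2 : τ < 1) (hε0 : 0 < ε) (hε1 : ε ≤ 1 / 4) :
    ∃ C : ℝ, 0 < C ∧ ∀ (k m : ℕ) (D : Dat (N + 2) k m) (c : ℝ), 0 < c → ND D →
      D.BL (ENNReal.ofReal c) → ∀ (y : Fin k ⊕ Fin m → ℝ) (g : ℝ), 2 * ε ≤ g →
      (∀ i, D.p i * g ≤ y (Sum.inl i)) → (∀ j, D.s j * g ≤ y (Sum.inr j)) →
      (∑ i, (y (Sum.inl i) - D.p i * g)) / τ + ∑ j, (y (Sum.inr j) - D.s j * g) = 1 - g →
      ∀ F μ, Φ F μ → ∀ (A : Fin k → Set (ℝ × ℝ)) (B : Fin m → Set ℝ), (∀ i, MeasurableSet (A i)) →
      (∀ j, MeasurableSet (B j)) →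
      ∫⁻ ξ in D.set A B, F ξ ^ 2 ≤ ENNReal.ofReal (C * μ) * ENNReal.ofReal (c ^ g) *
        ((∏ i, volume (A i) ^ y (Sum.inl i)) * ∏ j, volume (B j) ^ y (Sum.inr j)) := by
  have hτ0 : 0 < τ := by linarith
  obtain ⟨C1, hC1, hcyl⟩ := hΦ.cyl τ h1 h2
  obtain ⟨C2, hC2, hslab⟩ := hΦ.slab ε hε0 (by linarith)
  obtain ⟨C3, hC3, htriv⟩ := hΦ.triv
  refine ⟨C1 + C2 + C3, by positivity, ?_⟩
  intro k m D c hc0 hD hBL y g hεg hyp hys hsum F μ hF A B hA hB
  have hM := hΦ.nonneg F μ hF
  have hg : 0 < g := by linarith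
  have hypos : ∀ t, 0 < y t := by
    rintro (i | j)
    · exact (mul_pos (hD.pp i) hg).trans_le (hyp i)
    · exact (mul_pos (hD.sp j) hg).trans_le (hys j)
  set I : ℝ≥0∞ := ∫⁻ ξ in D.set A B, F ξ ^ 2 with hI
  have hTm := set_meas D A B hA hB
  have hTv := hBL A B hA hB
  -- trivial cases
  by_cases hz : (∃ i, volume (A i) = 0) ∨ ∃ j, volume (B j) = 0
  · have hT0 : volume (D.set A B) = 0 := by
      refine le_antisymm (hTv.trans (le_of_eq ?_)) zero_le
      rcases hz with ⟨i, hi⟩ | ⟨j, hj⟩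
      · rw [Finset.prod_eq_zero (Finset.mem_univ i) (by rw [hi, ENNReal.zero_rpow_of_pos (hD.pp i)]),
          zero_mul, mul_zero]
      · rw [Finset.prod_eq_zero (Finset.mem_univ j) (by rw [hj, ENNReal.zero_rpow_of_pos (hD.sp j)]),
          mul_zero, mul_zero]
    rw [hI, setLIntegral_measure_zero _ _ hT0]
    exact zero_le
  push Not at hz
  obtain ⟨hzA, hzB⟩ := hz
  rcases eq_or_lt_of_le hM with hM0 | hM0
  · have h3 : I ≤ 0 := by
      refine (lintegral_mono (g := fun _ => (0 : ℝ≥0∞)) fun ξ => ?_).trans (by simp)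
      have h4 := htriv F μ hF ξ
      rw [← hM0, mul_zero, ENNReal.ofReal_zero] at h4
      exact h4
    exact h3.trans zero_le
  have hcne0 : ENNReal.ofReal (c ^ g) ≠ 0 := by
    have : 0 < c ^ g := Real.rpow_pos_of_pos hc0 _
    simpa using this
  have hKne : ENNReal.ofReal ((C1 + C2 + C3) * μ) ≠ 0 := by
    have : 0 < (C1 + C2 + C3) * μ := by positivity
    simpa using this
  have hPA : ∏ i, volume (A i) ^ y (Sum.inl i) ≠ 0 := by
    rw [Finset.prod_ne_zero_iff]
    intro i _ h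
    rw [ENNReal.rpow_eq_zero_iff] at h
    rcases h with h | h
    · exact hzA i h.1
    · linarith [h.2, hypos (Sum.inl i)]
  have hPB : ∏ j, volume (B j) ^ y (Sum.inr j) ≠ 0 := by
    rw [Finset.prod_ne_zero_iff]
    intro i _ h
    rw [ENNReal.rpow_eq_zero_iff] at h
    rcases h with h | h
    · exact hzB i h.1
    · linarith [h.2, hypos (Sum.inr i)]
  by_cases ht : (∃ i, volume (A i) = ∞) ∨ ∃ j, volume (B j) = ∞
  · have hRHS : (∏ i, volume (A i) ^ y (Sum.inl i)) * ∏ j, volume (B j) ^ y (Sum.inr j) = ∞ := by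
      rcases ht with ⟨i, hi⟩ | ⟨j, hj⟩
      · have : ∏ i, volume (A i) ^ y (Sum.inl i) = ∞ :=
          prod_top' _ i (by simp only [hi, ENNReal.top_rpow_of_pos (hypos _)]) hPA
        rw [this, ENNReal.top_mul hPB]
      · have : ∏ j, volume (B j) ^ y (Sum.inr j) = ∞ :=
          prod_top' _ j (by simp only [hj, ENNReal.top_rpow_of_pos (hypos _)]) hPB
        rw [this, ENNReal.mul_top hPA]
    rw [hRHS, ENNReal.mul_top]
    · exact le_top
    · exact mul_ne_zero hKne hcne0
  push Not at ht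
  obtain ⟨htA, htB⟩ := ht
  -- real numbers
  set a : Fin k → ℝ := fun i => (volume (A i)).toReal with ha
  set b : Fin m → ℝ := fun j => (volume (B j)).toReal with hb
  have ha0 : ∀ i, 0 < a i := fun i => ENNReal.toReal_pos (hzA i) (htA i)
  have hb0 : ∀ j, 0 < b j := fun j => ENNReal.toReal_pos (hzB j) (htB j)
  have hae : ∀ i, volume (A i) = ENNReal.ofReal (a i) := fun i => (ENNReal.ofReal_toReal (htA i)).symm
  have hbe : ∀ j, volume (B j) = ENNReal.ofReal (b j) := fun j => (ENNReal.ofReal_toReal (htB j)).symm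
  have hpa : 0 < ∏ i, a i ^ D.p i := Finset.prod_pos fun i _ => Real.rpow_pos_of_pos (ha0 i) _
  have hpb : 0 < ∏ j, b j ^ D.s j := Finset.prod_pos fun j _ => Real.rpow_pos_of_pos (hb0 j) _
  set V : ℝ := c * (∏ i, a i ^ D.p i) * ∏ j, b j ^ D.s j with hV
  have hV0 : 0 < V := by positivity
  have hTV : volume (D.set A B) ≤ ENNReal.ofReal V := by
    refine hTv.trans (le_of_eq ?_)
    rw [hV, mul_assoc, ENNReal.ofReal_mul hc0.le, ENNReal.ofReal_mul hpa.le,
      ofReal_prod_rpow a ha0, ofReal_prod_rpow b hb0]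
    simp_rw [hae, hbe]
  set K : ℝ := (C1 + C2 + C3) * μ with hK
  have hK0 : 0 < K := by positivity
  have hM2 : 0 ≤ μ := hM0.le
  -- the three estimates
  have e0 : I ≤ ENNReal.ofReal (K * V) := by
    calc I ≤ ∫⁻ _ in D.set A B, ENNReal.ofReal (C3 * μ) := lintegral_mono fun ξ => htriv F μ hF ξ
      _ ≤ ENNReal.ofReal (C3 * μ * V) := by
          rw [setLIntegral_const, ENNReal.ofReal_mul (p := C3 * μ) (by positivity)]
          exact mul_le_mul_right hTV _
      _ ≤ _ := by
          refine ENNReal.ofReal_le_ofReal ?_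
          refine mul_le_mul_of_nonneg_right ?_ hV0.le
          exact mul_le_mul_of_nonneg_right (by linarith) hM2
  have eP : ∀ i, I ≤ ENNReal.ofReal (K * a i ^ τ) := by
    intro i
    have := hcyl F μ hF _ _ (hD.xu i) (hD.yu i) (hD.xy i) (A i) (D.set A B) (hA i) hTm
      (htA i) (fun ξ hξ => hξ.1 i)
    refine this.trans ?_
    rw [hae i, ENNReal.ofReal_rpow_of_pos (ha0 i), ← ENNReal.ofReal_mul (by positivity)]
    refine ENNReal.ofReal_le_ofReal ?_
    have hp : 0 ≤ a i ^ τ := (Real.rpow_pos_of_pos (ha0 i) _).le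
    refine mul_le_mul_of_nonneg_right ?_ hp
    exact mul_le_mul_of_nonneg_right (by linarith) hM2
  have eL : ∀ j, I ≤ ENNReal.ofReal (K * (b j ^ (1 - ε) * V ^ ε)) := by
    intro j
    have := hslab F μ hF _ (hD.zu j) (B j) (D.set A B) (hB j) hTm
      (fun ξ hξ => hξ.2 j) (b j) V (hb0 j) hV0 (hbe j) hTV
    refine this.trans ?_
    refine ENNReal.ofReal_le_ofReal ?_
    have hp : 0 ≤ b j ^ (1 - ε) * V ^ ε :=
      (mul_pos (Real.rpow_pos_of_pos (hb0 j) _) (Real.rpow_pos_of_pos hV0 _)).le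
    refine mul_le_mul_of_nonneg_right ?_ hp
    exact mul_le_mul_of_nonneg_right (by linarith) hM2
  have hIt : I ≠ ∞ := ne_top_of_le_ne_top ENNReal.ofReal_ne_top e0
  by_cases hI0 : I = 0
  · rw [hI0]; exact zero_le
  have hIp : 0 < I.toReal := ENNReal.toReal_pos hI0 hIt
  have hSP : 0 ≤ ∑ i, (y (Sum.inl i) - D.p i * g) :=
    Finset.sum_nonneg fun i _ => by linarith [hyp i]
  have hSL : 0 ≤ ∑ j, (y (Sum.inr j) - D.s j * g) :=
    Finset.sum_nonneg fun i _ => by linarith [hys i]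
  have hSL1 : ∑ j, (y (Sum.inr j) - D.s j * g) ≤ 1 := by
    have : 0 ≤ (∑ i, (y (Sum.inl i) - D.p i * g)) / τ := div_nonneg hSP hτ0.le
    linarith
  have hkey := log_interpW I.toReal K c V τ ε g a b (fun i => y (Sum.inl i))
    (fun j => y (Sum.inr j)) D.p D.s hIp hK0 hc0 ha0 hb0 rfl hτ0 (by linarith)
    (fun i => ENNReal.toReal_le_of_le_ofReal
      (mul_nonneg hK0.le (Real.rpow_pos_of_pos (ha0 i) _).le) (eP i))
    (fun j => ENNReal.toReal_le_of_le_ofReal
      (mul_nonneg hK0.le (mul_pos (Real.rpow_pos_of_pos (hb0 j) _)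
        (Real.rpow_pos_of_pos hV0 _)).le) (eL j))
    (ENNReal.toReal_le_of_le_ofReal (by positivity) e0)
    hyp hys
    (by
      have h5 : 0 < 1 - ε := by linarith
      have h6 : (∑ j, (y (Sum.inr j) - D.s j * g)) / (1 - ε) ≤ 2 := by
        rw [div_le_iff₀ h5]
        linarith
      have h7 : 0 ≤ (∑ j, (y (Sum.inr j) - D.s j * g)) / (1 - ε) := div_nonneg hSL h5.le
      nlinarith)
    hsum
  calc I = ENNReal.ofReal I.toReal := (ENNReal.ofReal_toReal hIt).symm
    _ ≤ ENNReal.ofReal (K * c ^ g * (∏ i, a i ^ y (Sum.inl i)) * ∏ j, b j ^ y (Sum.inr j)) :=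
        ENNReal.ofReal_le_ofReal hkey
    _ = _ := by
        have p1 : 0 ≤ ∏ i, a i ^ y (Sum.inl i) :=
          (Finset.prod_pos fun i _ => Real.rpow_pos_of_pos (ha0 i) _).le
        rw [mul_assoc (K * c ^ g), ENNReal.ofReal_mul (by positivity), ENNReal.ofReal_mul hK0.le,
          ENNReal.ofReal_mul p1, ofReal_prod_rpow a ha0, ofReal_prod_rpow b hb0]
        simp_rw [hae, hbe]

end Pool.Agent.H972BL
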