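import Mathlib
import Pool.Agent.helper972_bl.G2
set_option autoImplicit false

/-! Choice of the parameters; uniform constants. -/

namespace Pool.Agent.H972BL

open MeasureTheory Set Filter Topology
open scoped ENNReal NNReal RealInnerProductSpace
open Pool.Agent.H972PB (ofReal_prod_rpow prod_top')

variable {N k m : ℕ}

/-- lower bound of the constants -/
noncomputable def cn (n : ℕ) : ℝ := (volume (Metric.ball (0 : E n) 1)).toReal / 2 ^ n

theorem cn_pos (n : ℕ) : 0 < cn n := by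
  unfold cn
  have : 0 < (volume (Metric.ball (0 : E n) 1)).toReal :=
    ENNReal.toReal_pos (Metric.measure_ball_pos _ _ one_pos).ne' measure_ball_lt_top.ne
  positivity

theorem prod_const_rpow {ι : Type*} [Fintype ι] (a : ℝ) (ha : 0 < a) (p : ι → ℝ) :
    ∏ i, ENNReal.ofReal a ^ p i = ENNReal.ofReal (a ^ ∑ i, p i) := by
  rw [Real.rpow_sum_of_pos ha, ofReal_prod_rpow (fun _ => a) (fun _ => ha)]

theorem c_lower {n a b : ℕ} (D : Dat n a b) (c : ℝ) (hc : 0 < c) (hD : ND D)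
    (hBL : D.BL (ENNReal.ofReal c)) : cn n ≤ c := by
  have h1 := hBL (fun _ => Icc (-1 : ℝ) 1 ×ˢ Icc (-1 : ℝ) 1) (fun _ => Icc (-1 : ℝ) 1)
    (fun _ => measurableSet_Icc.prod measurableSet_Icc) (fun _ => measurableSet_Icc)
  have hsub : Metric.ball (0 : E n) 1 ⊆ D.set (fun _ => Icc (-1 : ℝ) 1 ×ˢ Icc (-1 : ℝ) 1)
      (fun _ => Icc (-1 : ℝ) 1) := by
    intro ξ hξ
    rw [Metric.mem_ball, dist_zero_right] at hξ
    have h2 : ∀ v : E n, ‖v‖ = 1 → ⟪v, ξ⟫ ∈ Icc (-1 : ℝ) 1 := by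
      intro v hv
      rw [mem_Icc, ← abs_le]
      refine (abs_real_inner_le_norm v ξ).trans ?_
      rw [hv, one_mul]
      exact hξ.le
    exact ⟨fun i => ⟨h2 _ (hD.xu i), h2 _ (hD.yu i)⟩, fun j => h2 _ (hD.zu j)⟩
  have h2 := (measure_mono hsub).trans h1
  have v2 : volume (Icc (-1 : ℝ) 1) = ENNReal.ofReal 2 := by
    rw [Real.volume_Icc]; norm_num
  have v4 : volume (Icc (-1 : ℝ) 1 ×ˢ Icc (-1 : ℝ) 1) = ENNReal.ofReal 4 := by
    rw [Measure.volume_eq_prod, Measure.prod_prod, v2, ← ENNReal.ofReal_mul (by norm_num)]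
    norm_num
  simp only [v2, v4] at h2
  rw [prod_const_rpow 4 (by norm_num), prod_const_rpow 2 (by norm_num),
    ← ENNReal.ofReal_mul (by positivity), ← ENNReal.ofReal_mul hc.le] at h2
  have e1 : (4 : ℝ) ^ (∑ i, D.p i) * 2 ^ (∑ j, D.s j) = 2 ^ n := by
    have e4 : (4 : ℝ) = 2 ^ (2 : ℝ) := by norm_num
    rw [e4, ← Real.rpow_mul (by norm_num), ← Real.rpow_add (by norm_num), hD.hom,
      Real.rpow_natCast]
  rw [e1] at h2
  have h3 := ENNReal.toReal_le_of_le_ofReal (by positivity) h2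
  unfold cn
  rw [div_le_iff₀ (by positivity)]
  exact h3

theorem exists_kappaU (α D0 n : ℝ) (hα : 0 < α) (hα1 : α < 1) (hD0 : 1 < α * D0) (hn : D0 ≤ n) :
    ∃ κ : ℝ, 0 < κ ∧ κ < 1 ∧ ∀ D, D0 ≤ D → D ≤ n → 1 < α * (1 - κ) * D ∧
      α * (1 + κ) * D - 1 < α * (1 - κ) * (D - 1) := by
  have hD1 : 1 < D0 := by nlinarith
  refine ⟨min (min (1 / 2) ((α * D0 - 1) / (2 * (α * D0)))) ((1 - α) / (2 * (α * (2 * n - 1)))), ?_⟩
  set κ := min (min (1 / 2) ((α * D0 - 1) / (2 * (α * D0)))) ((1 - α) / (2 * (α * (2 * n - 1))))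
    with hκ
  have p1 : 0 < 2 * (α * D0) := by linarith
  have p2 : 0 < 2 * (α * (2 * n - 1)) := by
    have : 0 < 2 * n - 1 := by linarith
    positivity
  have k0 : 0 < κ := lt_min (lt_min (by norm_num) (div_pos (by linarith) p1))
    (div_pos (by linarith) p2)
  have k1 : κ ≤ 1 / 2 := (min_le_left _ _).trans (min_le_left _ _)
  have k2 : κ ≤ (α * D0 - 1) / (2 * (α * D0)) := (min_le_left _ _).trans (min_le_right _ _)
  have k3 : κ ≤ (1 - α) / (2 * (α * (2 * n - 1))) := min_le_right _ _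
  rw [le_div_iff₀ p1] at k2
  rw [le_div_iff₀ p2] at k3
  refine ⟨k0, by linarith, fun D h1 h2 => ⟨?_, ?_⟩⟩
  · have h3 : α * (1 - κ) * D0 ≤ α * (1 - κ) * D :=
      mul_le_mul_of_nonneg_left h1 (mul_nonneg hα.le (by linarith))
    nlinarith
  · have h3 : κ * (α * D) ≤ κ * (α * n) :=
      mul_le_mul_of_nonneg_left (mul_le_mul_of_nonneg_left h2 hα.le) k0.le
    nlinarith

/-- Brascamp-Lieb sets, all exponents near the critical ones -/
theorem setsY (N : ℕ) (Φ : (E (N + 2) → ℝ≥0∞) → ℝ → Prop) (hΦ : Good Φ) (α : ℝ) (hα : 0 < α)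
    (hα1 : α < 1) (hαn : 1 < α * ((N : ℝ) + 2)) : ∃ κ : ℝ, 0 < κ ∧ κ < 1 ∧ ∃ C : ℝ, 0 < C ∧
      ∀ (k m : ℕ) (D : Dat (N + 2) k m) (c : ℝ), 0 < c → ND D →
      D.BL (ENNReal.ofReal c) → ∀ (y : Fin k ⊕ Fin m → ℝ),
      (∀ i, D.p i * (α * (1 - κ)) ≤ y (Sum.inl i)) → (∀ i, y (Sum.inl i) ≤ D.p i * (α * (1 + κ))) →
      (∀ j, D.s j * (α * (1 - κ)) ≤ y (Sum.inr j)) → (∀ j, y (Sum.inr j) ≤ D.s j * (α * (1 + κ))) →
      ∀ F μ, Φ F μ → ∀ (A : Fin k → Set (ℝ × ℝ)) (B : Fin m → Set ℝ), (∀ i, MeasurableSet (A i)) →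
      (∀ j, MeasurableSet (B j)) →
      ∫⁻ ξ in D.set A B, F ξ ^ 2 ≤ ENNReal.ofReal (C * μ) * ENNReal.ofReal (c ^ α) *
        ((∏ i, volume (A i) ^ y (Sum.inl i)) * ∏ j, volume (B j) ^ y (Sum.inr j)) := by
  set n : ℝ := (N : ℝ) + 2 with hn
  have hn2 : 2 ≤ n := by rw [hn]; linarith [(Nat.cast_nonneg N : (0 : ℝ) ≤ N)]
  set τ : ℝ := min (3 / 4) ((1 + α * n) / 4) with hτ
  have hτ1 : 1 / 2 < τ := lt_min (by norm_num) (by linarith)
  have hτ2 : τ ≤ 3 / 4 := min_le_left _ _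
  have hτ3 : τ < α * n / 2 := lt_of_le_of_lt (min_le_right _ _) (by linarith)
  have hτ0 : 0 < τ := by linarith
  set D0 : ℝ := n / (2 * τ) with hD0
  have hαD0 : 1 < α * D0 := by
    rw [hD0, ← mul_div_assoc, one_lt_div (by positivity)]
    linarith
  have hD0n : D0 ≤ n := by
    rw [hD0, div_le_iff₀ (by positivity)]
    nlinarith
  obtain ⟨κ, hκ0, hκ1, hκ⟩ := exists_kappaU α D0 n hα hα1 hαD0 hD0n
  have hδ := (hκ D0 le_rfl hD0n).1
  set g0 : ℝ := (α * (1 - κ) * D0 - 1) / (n - 1) with hg0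
  have hg00 : 0 < g0 := div_pos (by linarith) (by linarith)
  set ε : ℝ := min (1 / 4) (g0 / 2) with hε
  have hε0 : 0 < ε := lt_min (by norm_num) (by linarith)
  have hε1 : ε ≤ 1 / 4 := min_le_left _ _
  have hε2 : ε ≤ g0 / 2 := min_le_right _ _
  obtain ⟨C, hC, hmain⟩ := setsx Φ hΦ τ ε hτ1 (by linarith) hε0 hε1
  have hcn := cn_pos (N + 2)
  set lam : ℝ := max 1 (1 / cn (N + 2)) with hlam
  have hlam1 : 1 ≤ lam := le_max_left _ _
  refine ⟨κ, hκ0, hκ1, C * lam, by positivity, ?_⟩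
  intro k m D c hc hD hBL y y1 y2 y3 y4 F μ hF A B hA hB
  have hμ := hΦ.nonneg F μ hF
  have hhom : 2 * ∑ i, D.p i + ∑ j, D.s j = n := by
    have := hD.hom
    push_cast at this
    exact this
  have hP0 : 0 ≤ ∑ i, D.p i := Finset.sum_nonneg fun i _ => (hD.pp i).le
  have hS0 : 0 ≤ ∑ j, D.s j := Finset.sum_nonneg fun i _ => (hD.sp i).le
  set Dd : ℝ := (∑ i, D.p i) / τ + ∑ j, D.s j with hDd
  have hD1 : D0 ≤ Dd := by
    rw [hD0, div_le_iff₀ (by positivity), hDd]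
    have : ((∑ i, D.p i) / τ + ∑ j, D.s j) * (2 * τ) = 2 * ∑ i, D.p i + (∑ j, D.s j) * (2 * τ) := by
      field_simp
    rw [this]
    nlinarith
  have hD2 : Dd ≤ n := by
    rw [hDd]
    have : (∑ i, D.p i) / τ ≤ 2 * ∑ i, D.p i := by
      rw [div_le_iff₀ hτ0]
      nlinarith
    linarith
  obtain ⟨q1, q2⟩ := hκ Dd hD1 hD2
  have hDd1 : 1 < Dd := by nlinarith
  set X : ℝ := (∑ i, y (Sum.inl i)) / τ + ∑ j, y (Sum.inr j) with hX
  have hXlo : α * (1 - κ) * Dd ≤ X := by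
    have a1 : (∑ i, D.p i) * (α * (1 - κ)) ≤ ∑ i, y (Sum.inl i) := by
      rw [Finset.sum_mul]
      exact Finset.sum_le_sum fun i _ => y1 i
    have a2 : (∑ j, D.s j) * (α * (1 - κ)) ≤ ∑ j, y (Sum.inr j) := by
      rw [Finset.sum_mul]
      exact Finset.sum_le_sum fun i _ => y3 i
    have a3 := div_le_div_of_nonneg_right a1 hτ0.le
    rw [hX, hDd]
    calc α * (1 - κ) * ((∑ i, D.p i) / τ + ∑ j, D.s j) =
          (∑ i, D.p i) * (α * (1 - κ)) / τ + (∑ j, D.s j) * (α * (1 - κ)) := by ring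
      _ ≤ _ := add_le_add a3 a2
  have hXhi : X ≤ α * (1 + κ) * Dd := by
    have a1 : ∑ i, y (Sum.inl i) ≤ (∑ i, D.p i) * (α * (1 + κ)) := by
      rw [Finset.sum_mul]
      exact Finset.sum_le_sum fun i _ => y2 i
    have a2 : ∑ j, y (Sum.inr j) ≤ (∑ j, D.s j) * (α * (1 + κ)) := by
      rw [Finset.sum_mul]
      exact Finset.sum_le_sum fun i _ => y4 i
    have a3 := div_le_div_of_nonneg_right a1 hτ0.le
    rw [hX, hDd]
    calc _ ≤ (∑ i, D.p i) * (α * (1 + κ)) / τ + (∑ j, D.s j) * (α * (1 + κ)) := add_le_add a3 a2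
      _ = _ := by ring
  have hDd10 : 0 < Dd - 1 := by linarith
  set g : ℝ := (X - 1) / (Dd - 1) with hg
  have hgα : g < α * (1 - κ) := by
    rw [hg, div_lt_iff₀ hDd10]
    linarith
  have hgg0 : g0 ≤ g := by
    rw [hg, hg0, div_le_div_iff₀ (by linarith) hDd10]
    have c1 : α * (1 - κ) * D0 ≤ X :=
      (mul_le_mul_of_nonneg_left hD1 (mul_nonneg hα.le (by linarith))).trans hXlo
    have c2 : 0 ≤ α * (1 - κ) * D0 - 1 := by linarith
    calc (α * (1 - κ) * D0 - 1) * (Dd - 1) ≤ (α * (1 - κ) * D0 - 1) * (n - 1) :=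
          mul_le_mul_of_nonneg_left (by linarith) c2
      _ ≤ (X - 1) * (n - 1) := mul_le_mul_of_nonneg_right (by linarith) (by linarith)
  have hgX : g * (Dd - 1) = X - 1 := by rw [hg]; field_simp
  have hsum : (∑ i, (y (Sum.inl i) - D.p i * g)) / τ + ∑ j, (y (Sum.inr j) - D.s j * g) =
      1 - g := by
    rw [Finset.sum_sub_distrib, Finset.sum_sub_distrib, ← Finset.sum_mul, ← Finset.sum_mul, sub_div]
    have b4 : (∑ i, D.p i) * g / τ + (∑ j, D.s j) * g = Dd * g := by rw [hDd]; ring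
    linarith
  have h := hmain k m D c hc hD hBL y g (by linarith)
    (fun i => (mul_le_mul_of_nonneg_left hgα.le (hD.pp i).le).trans (y1 i))
    (fun j => (mul_le_mul_of_nonneg_left hgα.le (hD.sp j).le).trans (y3 j)) hsum F μ hF A B hA hB
  refine h.trans (mul_le_mul_left ?_ _)
  rw [← ENNReal.ofReal_mul (by positivity), ← ENNReal.ofReal_mul (by positivity)]
  refine ENNReal.ofReal_le_ofReal ?_
  have hgα' : g ≤ α := by nlinarith
  have hcc : c ^ g ≤ lam * c ^ α := by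
    have hcp : 0 < c ^ α := Real.rpow_pos_of_pos hc _
    rcases le_or_gt 1 c with h1c | h1c
    · calc c ^ g ≤ c ^ α := Real.rpow_le_rpow_of_exponent_le h1c hgα'
        _ = 1 * c ^ α := (one_mul _).symm
        _ ≤ _ := mul_le_mul_of_nonneg_right hlam1 hcp.le
    · have hlow := c_lower D c hc hD hBL
      have e1 : c ^ g = c ^ (g - α) * c ^ α := by
        rw [← Real.rpow_add hc, sub_add_cancel]
      rw [e1]
      refine mul_le_mul_of_nonneg_right ?_ hcp.le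
      calc c ^ (g - α) ≤ c ^ (-1 : ℝ) :=
            Real.rpow_le_rpow_of_exponent_ge hc h1c.le (by linarith)
        _ = 1 / c := by rw [Real.rpow_neg_one, one_div]
        _ ≤ 1 / cn (N + 2) := one_div_le_one_div_of_le hcn hlow
        _ ≤ lam := le_max_right _ _
  calc C * μ * c ^ g ≤ C * μ * (lam * c ^ α) := mul_le_mul_of_nonneg_left hcc (by positivity)
    _ = C * lam * μ * c ^ α := by ring

end Pool.Agent.H972BL
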