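import Mathlib
import Pool.Agent.helper972_bl.G3
set_option autoImplicit false

/-! Brascamp-Lieb weights, normalised data. -/

namespace Pool.Agent.H972BL

open MeasureTheory Set Filter Topology
open scoped ENNReal NNReal RealInnerProductSpace
open Pool.Agent.H972PL (ex psi corner psi_int weak le_weak weak_zero)
open Pool.Agent.H972PB (ofReal_prod_rpow prod_top' layerN psi_meas)

variable {N k m : ℕ}

/-- the weights of the maps -/
noncomputable def om {n k m : ℕ} (D : Dat n k m) (t : Fin k ⊕ Fin m) : ℝ := Sum.elim D.p D.s t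

/-- the factors of the weight -/
noncomputable def Wg {n k m : ℕ} (D : Dat n k m) (u : Fin k → ℝ × ℝ → ℝ≥0∞) (w : Fin m → ℝ → ℝ≥0∞)
    (t : Fin k ⊕ Fin m) (ξ : E n) : ℝ≥0∞ :=
  Sum.elim (fun i => u i (D.planar i ξ)) (fun j => w j (D.linear j ξ)) t

/-- the weak norms of the factors -/
noncomputable def wg {n k m : ℕ} (D : Dat n k m) (α : ℝ) (u : Fin k → ℝ × ℝ → ℝ≥0∞)
    (w : Fin m → ℝ → ℝ≥0∞) (t : Fin k ⊕ Fin m) : ℝ≥0∞ :=
  Sum.elim (fun i => weak (D.p i * α) (u i)) (fun j => weak (D.s j * α) (w j)) t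

/-- the distribution functions of the factors -/
noncomputable def dg (u : Fin k → ℝ × ℝ → ℝ≥0∞) (w : Fin m → ℝ → ℝ≥0∞)
    (s : Fin k ⊕ Fin m → ℝ) (t : Fin k ⊕ Fin m) : ℝ≥0∞ :=
  Sum.elim (fun i => volume {p | ENNReal.ofReal (s (Sum.inl i)) < u i p})
    (fun j => volume {p | ENNReal.ofReal (s (Sum.inr j)) < w j p}) t

theorem om_pos {n k m : ℕ} (D : Dat n k m) (hD : ND D) (t : Fin k ⊕ Fin m) : 0 < om D t := by
  rcases t with i | j
  · exact hD.pp i
  · exact hD.sp j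

theorem dg_le {n : ℕ} (D : Dat n k m) (α : ℝ) (u : Fin k → ℝ × ℝ → ℝ≥0∞) (w : Fin m → ℝ → ℝ≥0∞)
    (s : Fin k ⊕ Fin m → ℝ) (hs : ∀ t, 0 < s t) (t : Fin k ⊕ Fin m) :
    ENNReal.ofReal (s t) * dg u w s t ^ (om D t * α) ≤ wg D α u w t := by
  rcases t with i | j
  · exact le_weak (D.p i * α) (u i) _ (hs _)
  · exact le_weak (D.s j * α) (w j) _ (hs _)

theorem dg_zero {n : ℕ} (D : Dat n k m) (hD : ND D) (α : ℝ) (hα : 0 < α)
    (u : Fin k → ℝ × ℝ → ℝ≥0∞) (w : Fin m → ℝ → ℝ≥0∞)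
    (s : Fin k ⊕ Fin m → ℝ) (hs : ∀ t, 0 < s t) (t : Fin k ⊕ Fin m) (h : wg D α u w t = 0) :
    dg u w s t = 0 := by
  rcases t with i | j
  · exact weak_zero (D.p i * α) (mul_pos (hD.pp i) hα) (u i) h _ (hs _)
  · exact weak_zero (D.s j * α) (mul_pos (hD.sp j) hα) (w j) h _ (hs _)

theorem Wg_meas {n : ℕ} (D : Dat n k m) (u : Fin k → ℝ × ℝ → ℝ≥0∞) (w : Fin m → ℝ → ℝ≥0∞)
    (hu : ∀ i, Measurable (u i)) (hw : ∀ j, Measurable (w j)) (t : Fin k ⊕ Fin m) :
    Measurable (Wg D u w t) := by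
  rcases t with i | j
  · have : Measurable (D.planar i) := by unfold Dat.planar; fun_prop
    exact (hu i).comp this
  · have : Measurable (D.linear j) := by unfold Dat.linear; fun_prop
    exact (hw j).comp this

theorem Wg_prod {n : ℕ} (D : Dat n k m) (u : Fin k → ℝ × ℝ → ℝ≥0∞) (w : Fin m → ℝ → ℝ≥0∞)
    (ξ : E n) : ∏ t, Wg D u w t ξ = D.weight u w ξ := by
  rw [Fintype.prod_sum_type]
  rfl

theorem wg_prod {n : ℕ} (D : Dat n k m) (α : ℝ) (u : Fin k → ℝ × ℝ → ℝ≥0∞)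
    (w : Fin m → ℝ → ℝ≥0∞) :
    ∏ t, wg D α u w t = (∏ i, weak (D.p i * α) (u i)) * ∏ j, weak (D.s j * α) (w j) := by
  rw [Fintype.prod_sum_type]
  rfl

/-- **Brascamp-Lieb weights**, normalised data -/
theorem weightsN (N : ℕ) (Φ : (E (N + 2) → ℝ≥0∞) → ℝ → Prop) (hΦ : Good Φ) (α : ℝ) (hα : 0 < α)
    (hα1 : α < 1) (hαn : 1 < α * ((N : ℝ) + 2)) : ∃ C R : ℝ, 0 < C ∧ 0 < R ∧
      ∀ (k m : ℕ) (D : Dat (N + 2) k m) (c : ℝ), 0 < c → ND D →
      D.BL (ENNReal.ofReal c) → ∀ F μ, Φ F μ → ∀ (u : Fin k → ℝ × ℝ → ℝ≥0∞)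
      (w : Fin m → ℝ → ℝ≥0∞), (∀ i, Measurable (u i)) → (∀ j, Measurable (w j)) →
      ∫⁻ ξ, D.weight u w ξ * F ξ ^ 2 ≤
        ENNReal.ofReal (C * R ^ (k + m) * μ) * ENNReal.ofReal (c ^ α) *
          ((∏ i, weak (D.p i * α) (u i)) * ∏ j, weak (D.s j * α) (w j)) := by
  obtain ⟨κ, hκ0, hκ1, C, hC, hmain⟩ := setsY N Φ hΦ α hα hα1 hαn
  refine ⟨C, 2 / κ, hC, by positivity, ?_⟩
  intro k m D c hc hD hBL F μ hF u w hu hw
  have hM := hΦ.nonneg F μ hF
  have hG : Measurable fun ξ : E (N + 2) => F ξ ^ 2 := (hΦ.meas F μ hF).pow_const 2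
  have hWm := Wg_meas D u w hu hw
  have hPm : Measurable fun ξ => ∏ t, Wg D u w t ξ := Finset.measurable_prod _ fun t _ => hWm t
  set ρ : Measure (E (N + 2)) := volume.withDensity fun ξ => F ξ ^ 2 with hρ
  have hI : ∫⁻ ξ, D.weight u w ξ * F ξ ^ 2 = ∫⁻ ξ, ∏ t, Wg D u w t ξ ∂ρ := by
    rw [hρ, lintegral_withDensity_eq_lintegral_mul _ hG hPm]
    refine lintegral_congr fun ξ => ?_
    simp only [Pi.mul_apply]
    rw [mul_comm, Wg_prod]
  rw [hI, ← wg_prod]
  -- level sets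
  have hlev : ∀ (s : Fin k ⊕ Fin m → ℝ) (ν : Fin k ⊕ Fin m → ℝ),
      ρ {ξ | ∀ t ∈ Finset.univ, ENNReal.ofReal (s t) < Wg D u w t ξ} ≤
        ENNReal.ofReal (C * μ) * ENNReal.ofReal (c ^ α) *
          ∏ t, dg u w s t ^ ex (om D t * α) κ (ν t) (s t) := by
    intro s ν
    have hA : ∀ i, MeasurableSet {p | ENNReal.ofReal (s (Sum.inl i)) < u i p} := fun i =>
      measurableSet_lt measurable_const (hu i)
    have hB : ∀ j, MeasurableSet {p | ENNReal.ofReal (s (Sum.inr j)) < w j p} := fun j =>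
      measurableSet_lt measurable_const (hw j)
    have hset : {ξ | ∀ t ∈ Finset.univ, ENNReal.ofReal (s t) < Wg D u w t ξ} =
        D.set (fun i => {p | ENNReal.ofReal (s (Sum.inl i)) < u i p})
          (fun j => {p | ENNReal.ofReal (s (Sum.inr j)) < w j p}) := by
      ext ξ
      constructor
      · intro h
        exact ⟨fun i => h (Sum.inl i) (Finset.mem_univ _), fun j => h (Sum.inr j) (Finset.mem_univ _)⟩
      · rintro ⟨h1, h2⟩ t _
        rcases t with i | j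
        · exact h1 i
        · exact h2 j
    rw [hset, hρ, withDensity_apply _ (set_meas D _ _ hA hB)]
    have hlo : ∀ t, om D t * (α * (1 - κ)) ≤ ex (om D t * α) κ (ν t) (s t) := by
      intro t
      have := om_pos D hD t
      unfold ex
      split_ifs
      · exact le_of_eq (by ring)
      · nlinarith [mul_pos (mul_pos this hα) hκ0]
    have hhi : ∀ t, ex (om D t * α) κ (ν t) (s t) ≤ om D t * (α * (1 + κ)) := by
      intro t
      have := om_pos D hD t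
      unfold ex
      split_ifs
      · nlinarith [mul_pos (mul_pos this hα) hκ0]
      · exact le_of_eq (by ring)
    refine (hmain k m D c hc hD hBL (fun t => ex (om D t * α) κ (ν t) (s t))
      (fun i => hlo (Sum.inl i)) (fun i => hhi (Sum.inl i)) (fun j => hlo (Sum.inr j))
      (fun j => hhi (Sum.inr j)) F μ hF _ _ hA hB).trans (le_of_eq ?_)
    rw [Fintype.prod_sum_type]
    rfl
  by_cases hz : μ = 0 ∨ ∃ t, wg D α u w t = 0
  · have h0 : ∀ s : Fin k ⊕ Fin m → ℝ, (∀ t, 0 < s t) →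
        ρ {ξ | ∀ t ∈ Finset.univ, ENNReal.ofReal (s t) < Wg D u w t ξ} ≤
          0 * ∏ t, (fun (_ : Fin k ⊕ Fin m) (_ : ℝ) => (0 : ℝ≥0∞)) t (s t) := by
      intro s hs
      rw [zero_mul]
      refine (hlev s (fun _ => 0)).trans (le_of_eq ?_)
      rcases hz with hM0 | ⟨t, ht⟩
      · rw [hM0]
        simp
      · have h1 : ∏ t, dg u w s t ^ ex (om D t * α) κ ((fun _ => (0 : ℝ)) t) (s t) = 0 := by
          refine Finset.prod_eq_zero (Finset.mem_univ t) ?_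
          rw [dg_zero D hD α hα u w s hs t ht, ENNReal.zero_rpow_of_pos]
          unfold ex
          rw [if_neg (not_le.2 (hs t))]
          exact mul_pos (mul_pos (om_pos D hD t) hα) (by linarith)
        rw [h1, mul_zero]
    have h1 := layerN (Wg D u w) hWm (fun (_ : Fin k ⊕ Fin m) (_ : ℝ) => (0 : ℝ≥0∞))
      (fun _ => measurable_const) Finset.univ ρ 0 h0
    rw [zero_mul] at h1
    exact h1.trans zero_le
  push Not at hz
  obtain ⟨hM0, hwn0⟩ := hz
  have hM' : 0 < μ := lt_of_le_of_ne hM (Ne.symm hM0)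
  by_cases hfin : ∃ t, wg D α u w t = ∞
  · obtain ⟨t, ht⟩ := hfin
    have h1 : ∏ t, wg D α u w t = ∞ :=
      prod_top' _ t ht (Finset.prod_ne_zero_iff.2 fun t _ => hwn0 t)
    rw [h1, ENNReal.mul_top]
    · exact le_top
    · refine mul_ne_zero ?_ ?_
      · have : 0 < C * (2 / κ) ^ (k + m) * μ := by positivity
        simpa using this
      · have : 0 < c ^ α := Real.rpow_pos_of_pos hc _
        simpa using this
  push Not at hfin
  set ν : Fin k ⊕ Fin m → ℝ := fun t => (wg D α u w t).toReal with hν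
  have hν0 : ∀ t, 0 < ν t := fun t => ENNReal.toReal_pos (hwn0 t) (hfin t)
  have hνe : ∀ t, wg D α u w t = ENNReal.ofReal (ν t) := fun t =>
    (ENNReal.ofReal_toReal (hfin t)).symm
  have h1 := layerN (Wg D u w) hWm (fun t s => ENNReal.ofReal (psi κ (ν t) s))
    (fun t => psi_meas κ (ν t)) Finset.univ ρ (ENNReal.ofReal (C * μ) * ENNReal.ofReal (c ^ α)) (by
      intro s hs
      refine (hlev s ν).trans (mul_le_mul_right ?_ _)
      refine Finset.prod_le_prod' fun t _ => ?_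
      exact corner (om D t * α) κ (ν t) (s t) (mul_pos (om_pos D hD t) hα) hκ0 hκ1 (hν0 t) (hs t) _
        ((dg_le D α u w s hs t).trans (hνe t).le))
  refine h1.trans ?_
  calc ENNReal.ofReal (C * μ) * ENNReal.ofReal (c ^ α) *
        ∏ t, ∫⁻ s in Ioi (0 : ℝ), ENNReal.ofReal (psi κ (ν t) s)
      ≤ ENNReal.ofReal (C * μ) * ENNReal.ofReal (c ^ α) *
        ∏ t, (ENNReal.ofReal (2 / κ) * ENNReal.ofReal (ν t)) :=
        mul_le_mul_right (Finset.prod_le_prod' fun t _ => psi_int κ (ν t) hκ0 (hν0 t)) _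
    _ = ENNReal.ofReal (C * μ) * ENNReal.ofReal (c ^ α) *
        (ENNReal.ofReal (2 / κ) ^ (k + m) * ∏ t, wg D α u w t) := by
        rw [Finset.prod_mul_distrib, Finset.prod_const, Finset.card_univ, Fintype.card_sum,
          Fintype.card_fin, Fintype.card_fin]
        simp_rw [hνe]
    _ = _ := by
        have e2 : C * (2 / κ) ^ (k + m) * μ = (C * μ) * (2 / κ) ^ (k + m) := by ring
        rw [e2, ENNReal.ofReal_mul (p := C * μ) (by positivity),
          ENNReal.ofReal_pow (by positivity)]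
        ring

/-- **Brascamp-Lieb sets**, normalised data, constant independent of the datum -/
theorem setsN (N : ℕ) (Φ : (E (N + 2) → ℝ≥0∞) → ℝ → Prop) (hΦ : Good Φ) (α : ℝ) (hα : 0 < α)
    (hα1 : α < 1) (hαn : 1 < α * ((N : ℝ) + 2)) : ∃ C : ℝ, 0 < C ∧
      ∀ (k m : ℕ) (D : Dat (N + 2) k m) (c : ℝ), 0 < c → ND D →
      D.BL (ENNReal.ofReal c) → ∀ F μ, Φ F μ → ∀ (A : Fin k → Set (ℝ × ℝ)) (B : Fin m → Set ℝ),
      (∀ i, MeasurableSet (A i)) → (∀ j, MeasurableSet (B j)) →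
      ∫⁻ ξ in D.set A B, F ξ ^ 2 ≤ ENNReal.ofReal (C * μ) * ENNReal.ofReal (c ^ α) *
          ((∏ i, volume (A i) ^ (D.p i * α)) * ∏ j, volume (B j) ^ (D.s j * α)) := by
  obtain ⟨κ, hκ0, hκ1, C, hC, hmain⟩ := setsY N Φ hΦ α hα hα1 hαn
  refine ⟨C, hC, ?_⟩
  intro k m D c hc hD hBL F μ hF A B hA hB
  have lo : ∀ t, om D t * (α * (1 - κ)) ≤ om D t * α := fun t =>
    mul_le_mul_of_nonneg_left (by nlinarith) (om_pos D hD t).le
  have hi : ∀ t, om D t * α ≤ om D t * (α * (1 + κ)) := fun t =>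
    mul_le_mul_of_nonneg_left (by nlinarith) (om_pos D hD t).le
  exact hmain k m D c hc hD hBL (fun t => om D t * α) (fun i => lo (Sum.inl i))
    (fun i => hi (Sum.inl i)) (fun j => lo (Sum.inr j)) (fun j => hi (Sum.inr j)) F μ hF A B hA hB

end Pool.Agent.H972BL
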