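import Mathlib
import Pool.Agent.helper972_bl.G4
set_option autoImplicit false

/-! All Brascamp-Lieb data of rank at most two. -/

namespace Pool.Agent.H972BL

open MeasureTheory Set Filter Topology
open scoped ENNReal NNReal RealInnerProductSpace
open Pool.Agent.H972PL (weak)
open Pool.Agent.H972PB (pair_exists T2 T2_ker T1 T1_ker weak_comp ofReal_prod_rpow)

variable {N k m : ℕ}

theorem lin_scale2 {V : Type*} [NormedAddCommGroup V] [NormedSpace ℝ V] [MeasureSpace V]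
    [BorelSpace V] [FiniteDimensional ℝ V] [(volume : Measure V).IsAddHaarMeasure]
    (T : V →ₗ[ℝ] V) (hT : LinearMap.ker T = ⊥) :
    ∃ d : ℝ, 0 < d ∧ (∀ A : Set V, volume (T ⁻¹' A) = ENNReal.ofReal d⁻¹ * volume A) ∧
      ∀ A : Set V, volume (T '' A) = ENNReal.ofReal d * volume A := by
  have hd : LinearMap.det T ≠ 0 := by
    intro h0
    have := LinearMap.bot_lt_ker_of_det_eq_zero h0
    rw [hT] at this
    exact lt_irrefl _ this
  refine ⟨|LinearMap.det T|, abs_pos.2 hd, fun A => ?_, fun A => ?_⟩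
  · rw [← abs_inv]
    exact Measure.addHaar_preimage_linearMap volume hd A
  · exact Measure.addHaar_image_linearMap volume T A

/-- normalisation of a datum -/
theorem normalise (n : ℕ) (D : Dat n k m) (hD : D.Admissible) : ∃ (D' : Dat n k m)
    (S : Fin k → ℝ × ℝ →ₗ[ℝ] ℝ × ℝ) (R : Fin m → ℝ →ₗ[ℝ] ℝ), ND D' ∧ D'.p = D.p ∧ D'.s = D.s ∧
      (∀ i, LinearMap.ker (S i) = ⊥) ∧ (∀ j, LinearMap.ker (R j) = ⊥) ∧
      (∀ i ξ, D.planar i ξ = S i (D'.planar i ξ)) ∧ ∀ j ξ, D.linear j ξ = R j (D'.linear j ξ) := by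
  choose e f α β γ he hf hef hα hγ h1 h2 using fun i => pair_exists _ _ (hD.planar i)
  have hc0 : ∀ j : Fin m, ‖D.z j‖ ≠ 0 := fun j => norm_ne_zero_iff.2 (hD.linear j)
  refine ⟨⟨e, f, fun j => ‖D.z j‖⁻¹ • D.z j, D.p, D.s⟩, fun i => T2 (α i) (β i) (γ i),
    fun j => T1 ‖D.z j‖, ⟨he, hf, hef, fun j => ?_, hD.p_pos, hD.s_pos, hD.hom⟩, rfl, rfl,
    fun i => T2_ker _ _ _ (hα i) (hγ i), fun j => T1_ker _ (hc0 j), fun i ξ => ?_, fun j ξ => ?_⟩
  · rw [norm_smul, norm_inv, norm_norm, inv_mul_cancel₀ (hc0 j)]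
  · unfold Dat.planar
    rw [h1, h2, inner_smul_left, inner_add_left, inner_smul_left, inner_smul_left]
    rfl
  · unfold Dat.linear
    show ⟪D.z j, ξ⟫ = ‖D.z j‖ * ⟪‖D.z j‖⁻¹ • D.z j, ξ⟫
    rw [inner_smul_left, conj_trivial, ← mul_assoc, mul_inv_cancel₀ (hc0 j), one_mul]

theorem BL_pos {n : ℕ} (D : Dat n k m) (c : ℝ≥0) (h : D.BL c) : 0 < c := by
  by_contra h0
  have h1 : c = 0 := le_antisymm (not_lt.1 h0) zero_le
  have h2 := h (fun _ => univ) (fun _ => univ) (fun _ => MeasurableSet.univ)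
    (fun _ => MeasurableSet.univ)
  have h3 : D.set (fun _ => univ) (fun _ => univ) = univ := by
    ext ξ; simp [Dat.set]
  rw [h3, h1, ENNReal.coe_zero, zero_mul] at h2
  exact (Measure.measure_univ_ne_zero.2 (NeZero.ne (volume : Measure (E n)))) (le_antisymm h2 zero_le)

/-- the structure of the reduction -/
theorem reduce (n : ℕ) (D : Dat n k m) (hD : D.Admissible) (c : ℝ) (hc : 0 < c)
    (hBL : D.BL (ENNReal.ofReal c)) : ∃ (D' : Dat n k m)
    (S : Fin k → ℝ × ℝ →ₗ[ℝ] ℝ × ℝ) (R : Fin m → ℝ →ₗ[ℝ] ℝ) (d : Fin k → ℝ) (e : Fin m → ℝ),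
      ND D' ∧ D'.p = D.p ∧ D'.s = D.s ∧ (∀ i, 0 < d i) ∧ (∀ j, 0 < e j) ∧
      (∀ i ξ, D.planar i ξ = S i (D'.planar i ξ)) ∧ (∀ j ξ, D.linear j ξ = R j (D'.linear j ξ)) ∧
      (∀ i, ∀ A : Set (ℝ × ℝ), volume (S i ⁻¹' A) = ENNReal.ofReal (d i)⁻¹ * volume A) ∧
      (∀ j, ∀ B : Set ℝ, volume (R j ⁻¹' B) = ENNReal.ofReal (e j)⁻¹ * volume B) ∧
      D'.BL (ENNReal.ofReal (c * ((∏ i, d i ^ D.p i) * ∏ j, e j ^ D.s j))) := by
  obtain ⟨D', S, R, hD', hp, hs, hS, hR, h1, h2⟩ := normalise n D hD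
  choose d hd hd1 hd2 using fun i => lin_scale2 (S i) (hS i)
  choose e he he1 he2 using fun j => lin_scale2 (R j) (hR j)
  refine ⟨D', S, R, d, e, hD', hp, hs, hd, he, h1, h2, hd1, he1, ?_⟩
  intro A B hA hB
  have hSi : ∀ i, Function.Injective (S i) := fun i => LinearMap.ker_eq_bot.1 (hS i)
  have hRi : ∀ j, Function.Injective (R j) := fun j => LinearMap.ker_eq_bot.1 (hR j)
  have hSm : ∀ i, Measurable (S i) := fun i =>
    (LinearMap.continuous_of_finiteDimensional _).measurable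
  have hRm : ∀ j, Measurable (R j) := fun j =>
    (LinearMap.continuous_of_finiteDimensional _).measurable
  have hset : D'.set A B = D.set (fun i => S i '' A i) (fun j => R j '' B j) := by
    ext ξ
    unfold Dat.set
    simp only [mem_ofPred_eq, h1, h2, (hSi _).mem_set_image, (hRi _).mem_set_image]
  have h3 := hBL (fun i => S i '' A i) (fun j => R j '' B j)
    (fun i => (hA i).image_of_measurable_injOn (hSm i) (hSi i).injOn)
    (fun j => (hB j).image_of_measurable_injOn (hRm j) (hRi j).injOn)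
  rw [hset]
  refine h3.trans (le_of_eq ?_)
  simp only [hd2, he2, hp, hs]
  have hpd : 0 < ∏ i, d i ^ D.p i := Finset.prod_pos fun i _ => Real.rpow_pos_of_pos (hd i) _
  rw [ENNReal.ofReal_mul hc.le, ENNReal.ofReal_mul hpd.le, ofReal_prod_rpow d hd,
    ofReal_prod_rpow e he]
  simp_rw [fun i => ENNReal.mul_rpow_of_nonneg (ENNReal.ofReal (d i)) (volume (A i))
    (hD.p_pos i).le, fun j => ENNReal.mul_rpow_of_nonneg (ENNReal.ofReal (e j)) (volume (B j))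
    (hD.s_pos j).le]
  rw [Finset.prod_mul_distrib, Finset.prod_mul_distrib]
  ring

/-- the cancellation of the Jacobians -/
theorem cancel {ι : Type*} [Fintype ι] (d : ι → ℝ) (hd : ∀ i, 0 < d i) (p : ι → ℝ) (α : ℝ)
    (w : ι → ℝ≥0∞) :
    ENNReal.ofReal ((∏ i, d i ^ p i) ^ α) * ∏ i, (ENNReal.ofReal (d i)⁻¹ ^ (p i * α) * w i) =
      ∏ i, w i := by
  have h1 : ENNReal.ofReal ((∏ i, d i ^ p i) ^ α) = ∏ i, ENNReal.ofReal (d i) ^ (p i * α) := by
    rw [← ofReal_prod_rpow d hd, ← Real.finsetProd_rpow _ _ fun i _ =>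
      (Real.rpow_pos_of_pos (hd i) _).le]
    congr 1
    exact Finset.prod_congr rfl fun i _ => (Real.rpow_mul (hd i).le _ _).symm
  rw [h1, ← Finset.prod_mul_distrib]
  refine Finset.prod_congr rfl fun i _ => ?_
  rw [← mul_assoc, ENNReal.ofReal_rpow_of_pos (hd i), ENNReal.ofReal_rpow_of_pos (inv_pos.2 (hd i)),
    ← ENNReal.ofReal_mul (Real.rpow_pos_of_pos (hd i) _).le, ← Real.mul_rpow (hd i).le
    (inv_pos.2 (hd i)).le, mul_inv_cancel₀ (hd i).ne', Real.one_rpow, ENNReal.ofReal_one, one_mul]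

/-- **Brascamp-Lieb weights** -/
theorem weightsBL (N : ℕ) (Φ : (E (N + 2) → ℝ≥0∞) → ℝ → Prop) (hΦ : Good Φ) (α : ℝ) (hα : 0 < α)
    (hα1 : α < 1) (hαn : 1 < α * ((N : ℝ) + 2)) : ∃ C R : ℝ≥0,
      ∀ (k m : ℕ) (D : Dat (N + 2) k m) (c : ℝ≥0), D.Admissible →
      D.BL c → ∀ F μ, Φ F μ → ∀ (u : Fin k → ℝ × ℝ → ℝ≥0∞)
      (w : Fin m → ℝ → ℝ≥0∞), (∀ i, Measurable (u i)) → (∀ j, Measurable (w j)) →
      ∫⁻ ξ, D.weight u w ξ * F ξ ^ 2 ≤
        C * R ^ (k + m) * (c : ℝ≥0∞) ^ α * ((∏ i, weak (D.p i * α) (u i)) *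
          ∏ j, weak (D.s j * α) (w j)) * ENNReal.ofReal μ := by
  obtain ⟨C, R, hC, hR, h⟩ := weightsN N Φ hΦ α hα hα1 hαn
  refine ⟨C.toNNReal, R.toNNReal, ?_⟩
  intro k m D c0 hD hBL F μ hF u w hu hw
  have hμ := hΦ.nonneg F μ hF
  obtain ⟨c, rfl⟩ : ∃ c : ℝ, c0 = c.toNNReal := ⟨c0, by simp⟩
  have hc : 0 < c := by simpa using BL_pos D _ hBL
  obtain ⟨D', S, T, d, e, hD', hp, hs, hd, he, h1, h2, hd1, he1, hBL'⟩ :=
    reduce (N + 2) D hD c hc hBL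
  have hSm : ∀ i, Measurable (S i) := fun i =>
    (LinearMap.continuous_of_finiteDimensional _).measurable
  have hRm : ∀ j, Measurable (T j) := fun j =>
    (LinearMap.continuous_of_finiteDimensional _).measurable
  have hpd : 0 < ∏ i, d i ^ D.p i := Finset.prod_pos fun i _ => Real.rpow_pos_of_pos (hd i) _
  have hpe : 0 < ∏ j, e j ^ D.s j := Finset.prod_pos fun i _ => Real.rpow_pos_of_pos (he i) _
  have h3 := h k m D' _ (by positivity) hD' hBL' F μ hF (fun i p => u i (S i p))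
    (fun j t => w j (T j t)) (fun i => (hu i).comp (hSm i)) (fun j => (hw j).comp (hRm j))
  have h4 : ∀ ξ, D'.weight (fun i p => u i (S i p)) (fun j t => w j (T j t)) ξ =
      D.weight u w ξ := by
    intro ξ
    unfold Dat.weight
    simp_rw [h1, h2]
  simp_rw [h4] at h3
  refine h3.trans ?_
  rw [hp, hs]
  have w1 : ∏ i, weak (D.p i * α) (fun p => u i (S i p)) ≤
      ∏ i, (ENNReal.ofReal (d i)⁻¹ ^ (D.p i * α) * weak (D.p i * α) (u i)) :=
    Finset.prod_le_prod' fun i _ => weak_comp _ (mul_pos (hD.p_pos i) hα).le _ _ (hd1 i) _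
  have w2 : ∏ j, weak (D.s j * α) (fun p => w j (T j p)) ≤
      ∏ j, (ENNReal.ofReal (e j)⁻¹ ^ (D.s j * α) * weak (D.s j * α) (w j)) :=
    Finset.prod_le_prod' fun i _ => weak_comp _ (mul_pos (hD.s_pos i) hα).le _ _ (he1 i) _
  refine (mul_le_mul_right (mul_le_mul' w1 w2) _).trans (le_of_eq ?_)
  have e1 : (c * ((∏ i, d i ^ D.p i) * ∏ j, e j ^ D.s j)) ^ α =
      c ^ α * ((∏ i, d i ^ D.p i) ^ α * (∏ j, e j ^ D.s j) ^ α) := by
    rw [Real.mul_rpow hc.le (by positivity), Real.mul_rpow hpd.le hpe.le]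
  rw [e1, ENNReal.ofReal_mul (p := c ^ α) (by positivity),
    ENNReal.ofReal_mul (p := (∏ i, d i ^ D.p i) ^ α) (by positivity)]
  have e2 := cancel d hd D.p α (fun i => weak (D.p i * α) (u i))
  have e3 := cancel e he D.s α (fun j => weak (D.s j * α) (w j))
  rw [ENNReal.ofReal_mul (p := C * R ^ (k + m)) (by positivity), ENNReal.ofReal_mul (p := C) hC.le,
    ENNReal.ofReal_pow hR.le, ← ENNReal.ofReal_rpow_of_pos hc]
  have f1 : ENNReal.ofReal C = (C.toNNReal : ℝ≥0∞) := rfl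
  have f2 : ENNReal.ofReal R = (R.toNNReal : ℝ≥0∞) := rfl
  have f3 : ENNReal.ofReal c = (c.toNNReal : ℝ≥0∞) := rfl
  rw [f1, f2, f3]
  calc _ = (C.toNNReal : ℝ≥0∞) * (R.toNNReal : ℝ≥0∞) ^ (k + m) * (c.toNNReal : ℝ≥0∞) ^ α *
        ((ENNReal.ofReal ((∏ i, d i ^ D.p i) ^ α) *
          ∏ i, (ENNReal.ofReal (d i)⁻¹ ^ (D.p i * α) * weak (D.p i * α) (u i))) *
        (ENNReal.ofReal ((∏ j, e j ^ D.s j) ^ α) *
          ∏ j, (ENNReal.ofReal (e j)⁻¹ ^ (D.s j * α) * weak (D.s j * α) (w j)))) *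
        ENNReal.ofReal μ := by ring
    _ = _ := by rw [e2, e3]

/-- **Brascamp-Lieb sets**, constant independent of the datum -/
theorem setsBL (N : ℕ) (Φ : (E (N + 2) → ℝ≥0∞) → ℝ → Prop) (hΦ : Good Φ) (α : ℝ) (hα : 0 < α)
    (hα1 : α < 1) (hαn : 1 < α * ((N : ℝ) + 2)) : ∃ C : ℝ≥0,
      ∀ (k m : ℕ) (D : Dat (N + 2) k m) (c : ℝ≥0), D.Admissible →
      D.BL c → ∀ F μ, Φ F μ → ∀ (A : Fin k → Set (ℝ × ℝ)) (B : Fin m → Set ℝ),
      (∀ i, MeasurableSet (A i)) → (∀ j, MeasurableSet (B j)) →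
      ∫⁻ ξ in D.set A B, F ξ ^ 2 ≤
        C * (c * ((∏ i, volume (A i) ^ D.p i) * ∏ j, volume (B j) ^ D.s j)) ^ α *
          ENNReal.ofReal μ := by
  obtain ⟨C, hC, h⟩ := setsN N Φ hΦ α hα hα1 hαn
  refine ⟨C.toNNReal, ?_⟩
  intro k m D c0 hD hBL F μ hF A B hA hB
  have hμ := hΦ.nonneg F μ hF
  obtain ⟨c, rfl⟩ : ∃ c : ℝ, c0 = c.toNNReal := ⟨c0, by simp⟩
  have hc : 0 < c := by simpa using BL_pos D _ hBL
  obtain ⟨D', S, T, d, e, hD', hp, hs, hd, he, h1, h2, hd1, he1, hBL'⟩ :=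
    reduce (N + 2) D hD c hc hBL
  have hSm : ∀ i, Measurable (S i) := fun i =>
    (LinearMap.continuous_of_finiteDimensional _).measurable
  have hRm : ∀ j, Measurable (T j) := fun j =>
    (LinearMap.continuous_of_finiteDimensional _).measurable
  have hpd : 0 < ∏ i, d i ^ D.p i := Finset.prod_pos fun i _ => Real.rpow_pos_of_pos (hd i) _
  have hpe : 0 < ∏ j, e j ^ D.s j := Finset.prod_pos fun i _ => Real.rpow_pos_of_pos (he i) _
  have h3 := h k m D' _ (by positivity) hD' hBL' F μ hF (fun i => S i ⁻¹' A i)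
    (fun j => T j ⁻¹' B j) (fun i => hSm i (hA i)) (fun j => hRm j (hB j))
  have h4 : D'.set (fun i => S i ⁻¹' A i) (fun j => T j ⁻¹' B j) = D.set A B := by
    ext ξ
    unfold Dat.set
    simp only [mem_ofPred_eq, h1, h2, mem_preimage]
  rw [h4] at h3
  refine h3.trans ?_
  rw [hp, hs]
  simp only [hd1, he1]
  simp_rw [fun i => ENNReal.mul_rpow_of_nonneg (ENNReal.ofReal (d i)⁻¹) (volume (A i))
    (mul_pos (hD.p_pos i) hα).le, fun j => ENNReal.mul_rpow_of_nonneg (ENNReal.ofReal (e j)⁻¹)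
    (volume (B j)) (mul_pos (hD.s_pos j) hα).le]
  refine le_of_eq ?_
  have e1 : (c * ((∏ i, d i ^ D.p i) * ∏ j, e j ^ D.s j)) ^ α =
      c ^ α * ((∏ i, d i ^ D.p i) ^ α * (∏ j, e j ^ D.s j) ^ α) := by
    rw [Real.mul_rpow hc.le (by positivity), Real.mul_rpow hpd.le hpe.le]
  rw [e1, ENNReal.ofReal_mul (p := c ^ α) (by positivity),
    ENNReal.ofReal_mul (p := (∏ i, d i ^ D.p i) ^ α) (by positivity)]
  have e2 := cancel d hd D.p α (fun i => volume (A i) ^ (D.p i * α))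
  have e3 := cancel e he D.s α (fun j => volume (B j) ^ (D.s j * α))
  rw [ENNReal.ofReal_mul (p := C) hC.le, ← ENNReal.ofReal_rpow_of_pos hc]
  have f1 : ENNReal.ofReal C = (C.toNNReal : ℝ≥0∞) := rfl
  have f3 : ENNReal.ofReal c = (c.toNNReal : ℝ≥0∞) := rfl
  rw [f1, f3]
  have e4 : ((c.toNNReal : ℝ≥0∞) * ((∏ i, volume (A i) ^ D.p i) * ∏ j, volume (B j) ^ D.s j)) ^ α =
      (c.toNNReal : ℝ≥0∞) ^ α * ((∏ i, volume (A i) ^ (D.p i * α)) *
        ∏ j, volume (B j) ^ (D.s j * α)) := by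
    rw [ENNReal.mul_rpow_of_nonneg _ _ hα.le, ENNReal.mul_rpow_of_nonneg _ _ hα.le,
      ← ENNReal.prod_rpow_of_nonneg hα.le, ← ENNReal.prod_rpow_of_nonneg hα.le]
    simp_rw [ENNReal.rpow_mul]
  rw [e4]
  calc _ = (C.toNNReal : ℝ≥0∞) * (c.toNNReal : ℝ≥0∞) ^ α *
        ((ENNReal.ofReal ((∏ i, d i ^ D.p i) ^ α) *
          ∏ i, (ENNReal.ofReal (d i)⁻¹ ^ (D.p i * α) * volume (A i) ^ (D.p i * α))) *
        (ENNReal.ofReal ((∏ j, e j ^ D.s j) ^ α) *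
          ∏ j, (ENNReal.ofReal (e j)⁻¹ ^ (D.s j * α) * volume (B j) ^ (D.s j * α)))) *
        ENNReal.ofReal μ := by ring
    _ = _ := by rw [e2, e3]; ring

end Pool.Agent.H972BL
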