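import Mathlib
import Pool.Agent.helper972_bl.G5
set_option autoImplicit false

/-! Bases as Brascamp-Lieb data. -/

namespace Pool.Agent.H972BL

open MeasureTheory Set Filter Topology
open scoped ENNReal NNReal RealInnerProductSpace
open Pool.Agent.H972PB (TS TS_vol TS_meas)
open Pool.Agent.H972PB (level_num)

variable {N k m : ℕ}

theorem basis_adm {n : ℕ} (v : Fin n → E n) (σ : (Fin k ⊕ Fin k) ⊕ Fin m ≃ Fin n)
    (hv : LinearIndependent ℝ v) : (Dat.ofBasis v σ).Admissible where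
  planar i := by
    have h1 := hv.comp ![σ (Sum.inl (Sum.inl i)), σ (Sum.inl (Sum.inr i))] (by
      intro a b hab
      fin_cases a <;> fin_cases b
      · rfl
      · simp at hab
      · simp at hab
      · rfl)
    have h2 : v ∘ ![σ (Sum.inl (Sum.inl i)), σ (Sum.inl (Sum.inr i))] =
        ![v (σ (Sum.inl (Sum.inl i))), v (σ (Sum.inl (Sum.inr i)))] := by
      ext a
      fin_cases a <;> rfl
    rw [h2] at h1
    exact h1
  linear j := hv.ne_zero _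
  p_pos _ := one_pos
  s_pos _ := one_pos
  hom := by
    have hcard := Fintype.card_congr σ
    simp only [Fintype.card_sum, Fintype.card_fin] at hcard
    have h1 : ((k : ℝ) + k) + m = n := by exact_mod_cast hcard
    have h2 : ∑ i : Fin k, (Dat.ofBasis v σ).p i = k := by
      simp [Dat.ofBasis]
    have h3 : ∑ j : Fin m, (Dat.ofBasis v σ).s j = m := by
      simp [Dat.ofBasis]
    rw [h2, h3]
    linarith

theorem basis_vol (v : Fin (N + 2) → E (N + 2)) (σ : (Fin k ⊕ Fin k) ⊕ Fin m ≃ Fin (N + 2))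
    (hv : LinearIndependent ℝ v) (A : Fin k → Set (ℝ × ℝ)) (B : Fin m → Set ℝ)
    (hA : ∀ i, MeasurableSet (A i)) (hB : ∀ j, MeasurableSet (B j)) :
    volume ((Dat.ofBasis v σ).set A B) = cell v * ((∏ i, volume (A i)) * ∏ j, volume (B j)) :=
  TS_vol v hv σ A B hA hB

theorem cell_ne (v : Fin (N + 2) → E (N + 2)) (hv : LinearIndependent ℝ v) : cell v ≠ ∞ :=
  (Pool.Agent.R412.RS.frame v hv).2.1

theorem basis_BL (v : Fin (N + 2) → E (N + 2)) (σ : (Fin k ⊕ Fin k) ⊕ Fin m ≃ Fin (N + 2))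
    (hv : LinearIndependent ℝ v) : (Dat.ofBasis v σ).BL (cell v).toNNReal := by
  intro A B hA hB
  rw [ENNReal.coe_toNNReal (cell_ne v hv), basis_vol v σ hv A B hA hB]
  refine le_of_eq ?_
  congr 2
  · exact Finset.prod_congr rfl fun i _ => (ENNReal.rpow_one _).symm
  · exact Finset.prod_congr rfl fun i _ => (ENNReal.rpow_one _).symm

/-- product sets inside superlevel sets -/
theorem levelA (N k m : ℕ) (q : ℝ) (hq : 2 < q) (C Nm : ℝ≥0∞)
    (v : Fin (N + 2) → E (N + 2)) (σ : (Fin k ⊕ Fin k) ⊕ Fin m ≃ Fin (N + 2))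
    (F : E (N + 2) → ℝ≥0∞) (hv : LinearIndependent ℝ v)
    (h : ∀ (A : Fin k → Set (ℝ × ℝ)) (B : Fin m → Set ℝ), (∀ i, MeasurableSet (A i)) →
      (∀ j, MeasurableSet (B j)) →
      ∫⁻ x in TS v σ A B, F x ^ 2 ≤ C * volume (TS v σ A B) ^ (1 - 2 / q) * Nm ^ 2)
    (A : Fin k → Set (ℝ × ℝ)) (B : Fin m → Set ℝ) (hA : ∀ i, MeasurableSet (A i))
    (hB : ∀ j, MeasurableSet (B j)) (l : ℝ) (hl : 0 < l)
    (hsub : ∀ x ∈ TS v σ A B, ENNReal.ofReal l ≤ F x) :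
    volume (TS v σ A B) ≤ C ^ (q / 2) * (Nm / ENNReal.ofReal l) ^ q := by
  set AR : ℕ → Fin k → Set (ℝ × ℝ) := fun R i => A i ∩ (Icc (-(R : ℝ)) R ×ˢ Icc (-(R : ℝ)) R)
    with hAR
  set BR : ℕ → Fin m → Set ℝ := fun R j => B j ∩ Icc (-(R : ℝ)) R with hBR
  have hARm : ∀ R i, MeasurableSet (AR R i) := fun R i =>
    (hA i).inter (measurableSet_Icc.prod measurableSet_Icc)
  have hBRm : ∀ R j, MeasurableSet (BR R j) := fun R j => (hB j).inter measurableSet_Icc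
  have hcell := Pool.Agent.R412.RS.frame v hv
  have hfin : ∀ R, volume (TS v σ (AR R) (BR R)) ≠ ∞ := by
    intro R
    rw [TS_vol v hv σ _ _ (hARm R) (hBRm R)]
    refine ENNReal.mul_ne_top hcell.2.1 (ENNReal.mul_ne_top ?_ ?_)
    · refine ENNReal.prod_ne_top fun i _ => ?_
      refine ne_top_of_le_ne_top ?_ (measure_mono inter_subset_right)
      rw [Measure.volume_eq_prod, Measure.prod_prod, Real.volume_Icc]
      exact ENNReal.mul_ne_top ENNReal.ofReal_ne_top ENNReal.ofReal_ne_top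
    · refine ENNReal.prod_ne_top fun i _ => ?_
      refine ne_top_of_le_ne_top ?_ (measure_mono inter_subset_right)
      rw [Real.volume_Icc]
      exact ENNReal.ofReal_ne_top
  have hsubR : ∀ R, TS v σ (AR R) (BR R) ⊆ TS v σ A B := fun R x hx =>
    ⟨fun i => (hx.1 i).1, fun j => (hx.2 j).1⟩
  have hbd : ∀ R, volume (TS v σ (AR R) (BR R)) ≤ C ^ (q / 2) * (Nm / ENNReal.ofReal l) ^ q := by
    intro R
    refine level_num q hq C _ _ _ (by simpa using hl) ENNReal.ofReal_ne_top (hfin R) ?_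
    refine le_trans ?_ (h (AR R) (BR R) (hARm R) (hBRm R))
    have hm : MeasurableSet (TS v σ (AR R) (BR R)) := TS_meas v σ _ _ (hARm R) (hBRm R)
    rw [← setLIntegral_const]
    exact setLIntegral_mono' hm fun x hx => pow_le_pow_left' (hsub x (hsubR R hx)) 2
  have hmono : Monotone fun R => TS v σ (AR R) (BR R) := by
    intro R S hRS x hx
    have h1 : (R : ℝ) ≤ S := by exact_mod_cast hRS
    refine ⟨fun i => ⟨(hx.1 i).1, ?_⟩, fun j => ⟨(hx.2 j).1, ?_⟩⟩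
    · have h2 := (hx.1 i).2
      exact ⟨⟨by linarith [h2.1.1], by linarith [h2.1.2]⟩, ⟨by linarith [h2.2.1], by linarith [h2.2.2]⟩⟩
    · have h2 := (hx.2 j).2
      exact ⟨by linarith [h2.1], by linarith [h2.2]⟩
  have hun : ⋃ R, TS v σ (AR R) (BR R) = TS v σ A B := by
    refine Subset.antisymm (iUnion_subset hsubR) fun x hx => ?_
    obtain ⟨R, hR⟩ := exists_nat_ge (∑ t, |⟪v t, x⟫|)
    rw [mem_iUnion]
    have h1 : ∀ t, ⟪v t, x⟫ ∈ Icc (-(R : ℝ)) R := by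
      intro t
      rw [mem_Icc, ← abs_le]
      exact (Finset.single_le_sum (f := fun t => |⟪v t, x⟫|) (fun _ _ => abs_nonneg _)
        (Finset.mem_univ t)).trans hR
    exact ⟨R, fun i => ⟨hx.1 i, h1 _, h1 _⟩, fun j => ⟨hx.2 j, h1 _⟩⟩
  rw [← hun, hmono.measure_iUnion]
  exact iSup_le hbd

/-- the three statements for a function class -/
theorem all (N : ℕ) (Φ : (E (N + 2) → ℝ≥0∞) → ℝ → Prop) (hΦ : Good Φ) (q : ℝ) (hq : 2 < q)
    (hr : q / (q - 2) < (N : ℝ) + 2) :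
    (∃ C : ℝ≥0, ∀ (k m : ℕ) (D : Dat (N + 2) k m) (c : ℝ≥0), D.Admissible →
      D.BL c → ∀ F μ, Φ F μ → ∀ (A : Fin k → Set (ℝ × ℝ)) (B : Fin m → Set ℝ),
      (∀ i, MeasurableSet (A i)) → (∀ j, MeasurableSet (B j)) →
      ∫⁻ ξ in D.set A B, F ξ ^ 2 ≤
        C * (c * ((∏ i, volume (A i) ^ D.p i) * ∏ j, volume (B j) ^ D.s j)) ^ (1 - 2 / q) *
          ENNReal.ofReal μ) ∧
    (∃ C R : ℝ≥0, ∀ (k m : ℕ) (D : Dat (N + 2) k m) (c : ℝ≥0), D.Admissible →
      D.BL c → ∀ F μ, Φ F μ → ∀ (u : Fin k → ℝ × ℝ → ℝ≥0∞)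
      (w : Fin m → ℝ → ℝ≥0∞), (∀ i, Measurable (u i)) → (∀ j, Measurable (w j)) →
      ∫⁻ ξ, D.weight u w ξ * F ξ ^ 2 ≤
        C * R ^ (k + m) * (c : ℝ≥0∞) ^ (1 - 2 / q) * ((∏ i, weakNorm (D.p i * (1 - 2 / q)) (u i)) *
          ∏ j, weakNorm (D.s j * (1 - 2 / q)) (w j)) * ENNReal.ofReal μ) ∧
    (∃ C : ℝ≥0, ∀ (k m : ℕ) (σ : (Fin k ⊕ Fin k) ⊕ Fin m ≃ Fin (N + 2))
      (v : Fin (N + 2) → E (N + 2)), LinearIndependent ℝ v → ∀ F μ, Φ F (μ ^ 2) → 0 ≤ μ →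
      ∀ (A : Fin k → Set (ℝ × ℝ)) (B : Fin m → Set ℝ),
      (∀ i, MeasurableSet (A i)) → (∀ j, MeasurableSet (B j)) → ∀ l : ℝ, 0 < l →
      (∀ x ∈ (Dat.ofBasis v σ).set A B, ENNReal.ofReal l ≤ F x) →
      volume ((Dat.ofBasis v σ).set A B) ≤ C * (ENNReal.ofReal μ / ENNReal.ofReal l) ^ q) := by
  have hq0 : 0 < q := by linarith
  have h2q : 2 / q < 1 := by rw [div_lt_one hq0]; exact hq
  have h2q' : 0 < 2 / q := by positivity
  have hα : 0 < 1 - 2 / q := by linarith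
  have hα1 : 1 - 2 / q < 1 := by linarith
  have hαn : 1 < (1 - 2 / q) * ((N : ℝ) + 2) := by
    rw [div_lt_iff₀ (by linarith)] at hr
    have : (1 - 2 / q) * ((N : ℝ) + 2) = ((N : ℝ) + 2) * (q - 2) / q := by field_simp
    rw [this, one_lt_div hq0]
    exact hr
  obtain ⟨C, hC⟩ := setsBL N Φ hΦ _ hα hα1 hαn
  refine ⟨⟨C, hC⟩, weightsBL N Φ hΦ _ hα hα1 hαn, C ^ (q / 2), ?_⟩
  intro k m σ v hv F μ hF hμ A B hA hB l hl hsub
  have h1 : ∀ (A : Fin k → Set (ℝ × ℝ)) (B : Fin m → Set ℝ), (∀ i, MeasurableSet (A i)) →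
      (∀ j, MeasurableSet (B j)) →
      ∫⁻ x in TS v σ A B, F x ^ 2 ≤ C * volume (TS v σ A B) ^ (1 - 2 / q) *
        ENNReal.ofReal μ ^ 2 := by
    intro A B hA hB
    have h2 := hC k m (Dat.ofBasis v σ) _ (basis_adm v σ hv) (basis_BL v σ hv) F _ hF A B hA hB
    have h3 : ((cell v).toNNReal : ℝ≥0∞) * ((∏ i, volume (A i) ^ (Dat.ofBasis v σ).p i) *
        ∏ j, volume (B j) ^ (Dat.ofBasis v σ).s j) = volume (TS v σ A B) := by
      rw [ENNReal.coe_toNNReal (cell_ne v hv)]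
      refine Eq.trans ?_ (basis_vol v σ hv A B hA hB).symm
      congr 2
      · exact Finset.prod_congr rfl fun i _ => ENNReal.rpow_one _
      · exact Finset.prod_congr rfl fun i _ => ENNReal.rpow_one _
    rw [h3, ENNReal.ofReal_pow hμ] at h2
    exact h2
  rw [ENNReal.coe_rpow_of_nonneg _ (by positivity)]
  exact levelA N k m q hq C _ v σ F hv h1 A B hA hB l hl hsub

end Pool.Agent.H972BL
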