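import Mathlib
import Pool.Agent.helper972_bl.G6
import Pool.Agent.TH278.FN.SphD
set_option autoImplicit false

/-! Graphs on the coordinates of a basis as Brascamp-Lieb data (Finner's inequality). -/

namespace Pool.Agent.H972BL

open MeasureTheory Set Filter Topology
open scoped ENNReal NNReal RealInnerProductSpace
open Pool.Agent.R412.RS (co co_meas frame)
open Pool.Agent.TH278.FN (mg vertex_zero SI fI fI_meas fI_dep mg_fI_diag mg_fI_off)

variable {n a b : ℕ}

/-- the pair of indices of a factor -/
def PP (I J : Fin a → Fin n) (K : Fin b → Fin n) (t : Fin a ⊕ Fin b) : Σ _ : Fin n, Fin n :=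
  Sum.elim (fun i => ⟨I i, J i⟩) (fun j => ⟨K j, K j⟩) t

/-- Finner's inequality for sets -/
theorem finner_sets (I J : Fin a → Fin n) (K : Fin b → Fin n) (p : Fin a → ℝ) (s : Fin b → ℝ)
    (h : TotalOne I J K p s) (A : Fin a → Set (ℝ × ℝ)) (B : Fin b → Set ℝ)
    (hA : ∀ i, MeasurableSet (A i)) (hB : ∀ j, MeasurableSet (B j)) :
    volume {x : Fin n → ℝ | (∀ i, (x (I i), x (J i)) ∈ A i) ∧ ∀ j, x (K j) ∈ B j} ≤
      (∏ i, volume (A i) ^ p i) * ∏ j, volume (B j) ^ s j := by
  set φ : Fin a ⊕ Fin b → Fin n → ℝ → ℝ≥0∞ := fun t _ =>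
    Sum.elim (fun _ => 0) (fun j => (B j).indicator 1) t with hφ
  set g : Fin a ⊕ Fin b → Fin n → Fin n → ℝ × ℝ → ℝ≥0∞ := fun t _ _ =>
    Sum.elim (fun i => (A i).indicator 1) (fun _ => 0) t with hg
  have hφm : ∀ t i, Measurable (φ t i) := by
    rintro (i | j) _
    · exact measurable_const
    · exact measurable_one.indicator (hB j)
  have hgm : ∀ t i j, Measurable (g t i j) := by
    rintro (i | j) _ _
    · exact measurable_one.indicator (hA i)
    · exact measurable_const
  have hSm : MeasurableSet {x : Fin n → ℝ | (∀ i, (x (I i), x (J i)) ∈ A i) ∧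
      ∀ j, x (K j) ∈ B j} := by
    have h1 : {x : Fin n → ℝ | (∀ i, (x (I i), x (J i)) ∈ A i) ∧ ∀ j, x (K j) ∈ B j} =
        (⋂ i, {x : Fin n → ℝ | (x (I i), x (J i)) ∈ A i}) ∩ ⋂ j, {x | x (K j) ∈ B j} := by
      ext x; simp
    rw [h1]
    refine (MeasurableSet.iInter fun i => ?_).inter (MeasurableSet.iInter fun j => ?_)
    · have : Measurable fun x : Fin n → ℝ => (x (I i), x (J i)) := by fun_prop
      exact this (hA i)
    · have : Measurable fun x : Fin n → ℝ => x (K j) := by fun_prop
      exact this (hB j)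
  have key := vertex_zero (Finset.univ : Finset (Fin a ⊕ Fin b)) (fun t => SI (PP I J K t))
    (Sum.elim p s) (fun t => fI (φ t) (g t) (PP I J K t))
    (fun t _ => fI_meas (φ t) (g t) (hφm t) (hgm t) _) (fun t _ => fI_dep (φ t) (g t) _)
    (by
      rintro (i | j) _
      · exact (h.p_pos i).le
      · exact (h.s_pos j).le)
    (by
      intro t
      rw [← h.total t]
      rw [Finset.sum_filter, Fintype.sum_sum_type, Finset.sum_filter, Finset.sum_filter]
      congr 1
      · refine Finset.sum_congr rfl fun i _ => ?_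
        simp only [PP, SI, Sum.elim_inl, Finset.mem_insert, Finset.mem_singleton]
        congr 1
        simp only [eq_iff_iff]
        constructor
        · rintro (h | h)
          · exact Or.inl h.symm
          · exact Or.inr h.symm
        · rintro (h | h)
          · exact Or.inl h.symm
          · exact Or.inr h.symm
      · refine Finset.sum_congr rfl fun j _ => ?_
        simp only [PP, SI, Sum.elim_inr, Finset.mem_insert, Finset.mem_singleton, or_self]
        congr 1
        simp only [eq_iff_iff]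
        exact ⟨Eq.symm, Eq.symm⟩)
    (fun _ => 1) 1 0 (fun _ => le_rfl)
  rw [one_mul, Fintype.prod_sum_type] at key
  have e1 : ∀ i, mg (SI (PP I J K (Sum.inl i))) (fI (φ (Sum.inl i)) (g (Sum.inl i))
      (PP I J K (Sum.inl i))) 0 = volume (A i) := by
    intro i
    have := mg_fI_off (φ (Sum.inl i)) (g (Sum.inl i)) (I i) (J i) (h.ne i) (hgm (Sum.inl i)) 0
    refine this.trans ?_
    exact lintegral_indicator_one (hA i)
  have e2 : ∀ j, mg (SI (PP I J K (Sum.inr j))) (fI (φ (Sum.inr j)) (g (Sum.inr j))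
      (PP I J K (Sum.inr j))) 0 = volume (B j) := by
    intro j
    have := mg_fI_diag (φ (Sum.inr j)) (g (Sum.inr j)) (K j) (hφm (Sum.inr j)) 0
    refine this.trans ?_
    exact lintegral_indicator_one (hB j)
  simp only [e1, e2, Sum.elim_inl, Sum.elim_inr] at key
  refine le_trans ?_ key
  rw [← lintegral_indicator_one hSm]
  refine lintegral_mono fun x => ?_
  by_cases hx : x ∈ {x : Fin n → ℝ | (∀ i, (x (I i), x (J i)) ∈ A i) ∧ ∀ j, x (K j) ∈ B j}
  · rw [indicator_of_mem hx, Pi.one_apply, one_mul]
    refine le_of_eq (Eq.symm ?_)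
    refine Finset.prod_eq_one fun t _ => ?_
    rcases t with i | j
    · have : fI (φ (Sum.inl i)) (g (Sum.inl i)) (PP I J K (Sum.inl i)) x = 1 := by
        unfold fI
        exact (if_neg (h.ne i)).trans (indicator_of_mem (hx.1 i) _)
      rw [this, ENNReal.one_rpow]
    · have : fI (φ (Sum.inr j)) (g (Sum.inr j)) (PP I J K (Sum.inr j)) x = 1 := by
        unfold fI
        exact (if_pos rfl).trans (indicator_of_mem (hx.2 j) _)
      rw [this, ENNReal.one_rpow]
  · rw [indicator_of_notMem hx]
    exact zero_le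

theorem graph_adm (v : Fin n → E n) (hv : LinearIndependent ℝ v) (I J : Fin a → Fin n)
    (K : Fin b → Fin n) (p : Fin a → ℝ) (s : Fin b → ℝ) (h : TotalOne I J K p s) :
    (Dat.ofGraph v I J K p s).Admissible where
  planar i := by
    have h1 := hv.comp ![I i, J i] (by
      intro a b hab
      fin_cases a <;> fin_cases b
      · rfl
      · exact absurd hab (h.ne i)
      · exact absurd hab.symm (h.ne i)
      · rfl)
    have h2 : v ∘ ![I i, J i] = ![v (I i), v (J i)] := by
      ext a
      fin_cases a <;> rfl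
    rw [h2] at h1
    exact h1
  linear j := hv.ne_zero _
  p_pos := h.p_pos
  s_pos := h.s_pos
  hom := by
    have h1 : ∑ t : Fin n, (∑ i with I i = t ∨ J i = t, p i + ∑ j with K j = t, s j) = n := by
      simp_rw [h.total]
      simp
    rw [← h1, Finset.sum_add_distrib]
    congr 1
    · simp_rw [Finset.sum_filter]
      rw [Finset.sum_comm, Finset.mul_sum]
      refine Finset.sum_congr rfl fun i _ => ?_
      have h2 : ∀ t : Fin n, (if I i = t ∨ J i = t then p i else 0) =
          (if I i = t then p i else 0) + if J i = t then p i else 0 := by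
        intro t
        by_cases h3 : I i = t
        · have h4 : ¬ J i = t := fun h4 => h.ne i (h3.trans h4.symm)
          simp [h3, h4]
        · simp [h3]
      simp_rw [h2]
      rw [Finset.sum_add_distrib, Finset.sum_ite_eq, Finset.sum_ite_eq]
      simp only [Finset.mem_univ, if_true]
      show 2 * p i = p i + p i
      ring
    · simp_rw [Finset.sum_filter]
      rw [Finset.sum_comm]
      refine Finset.sum_congr rfl fun j _ => ?_
      rw [Finset.sum_ite_eq]
      simp only [Finset.mem_univ, if_true]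
      rfl

theorem graph_BL {N : ℕ} (v : Fin (N + 2) → E (N + 2)) (hv : LinearIndependent ℝ v)
    (I J : Fin a → Fin (N + 2)) (K : Fin b → Fin (N + 2)) (p : Fin a → ℝ) (s : Fin b → ℝ)
    (h : TotalOne I J K p s) : (Dat.ofGraph v I J K p s).BL (cell v).toNNReal := by
  intro A B hA hB
  rw [ENNReal.coe_toNNReal (cell_ne v hv)]
  have hf := (frame v hv).2.2
  have hSm : MeasurableSet {x : Fin (N + 2) → ℝ | (∀ i, (x (I i), x (J i)) ∈ A i) ∧
      ∀ j, x (K j) ∈ B j} := by
    have h1 : {x : Fin (N + 2) → ℝ | (∀ i, (x (I i), x (J i)) ∈ A i) ∧ ∀ j, x (K j) ∈ B j} =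
        (⋂ i, {x : Fin (N + 2) → ℝ | (x (I i), x (J i)) ∈ A i}) ∩ ⋂ j, {x | x (K j) ∈ B j} := by
      ext x; simp
    rw [h1]
    refine (MeasurableSet.iInter fun i => ?_).inter (MeasurableSet.iInter fun j => ?_)
    · have : Measurable fun x : Fin (N + 2) → ℝ => (x (I i), x (J i)) := by fun_prop
      exact this (hA i)
    · have : Measurable fun x : Fin (N + 2) → ℝ => x (K j) := by fun_prop
      exact this (hB j)
  have e1 : (Dat.ofGraph v I J K p s).set A B = co v ⁻¹' {x : Fin (N + 2) → ℝ |
      (∀ i, (x (I i), x (J i)) ∈ A i) ∧ ∀ j, x (K j) ∈ B j} := rfl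
  rw [e1, ← Measure.map_apply (co_meas v) hSm, hf, Measure.smul_apply, smul_eq_mul]
  exact mul_le_mul_right (finner_sets I J K p s h A B hA hB) _

end Pool.Agent.H972BL
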