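import Mathlib
import Pool.Agent.R412.SP.Z2
import Pool.Agent.helper972_bl.Good
set_option autoImplicit false

/-! The cylinder and slab estimates on the sphere, in all orthonormal frames. -/

namespace Pool.Agent.H972BL

open MeasureTheory Set Filter Topology
open scoped ENNReal NNReal RealInnerProductSpace
open Pool.Agent.H789R2.FR (sg T sg_finite sg_inv)
open Pool.Agent.H438R2.BR (J J_mp)
open Pool.Agent.TH278.FN (TJ TJ_meas meas_TJ scale scale_in one_le_two_pi T_meas T_comp J_smul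
  hpair hsing T_le)
open Pool.Agent.R412.SP (ft ft_eqT exists_G sigma)

/-- the first block of coordinates -/
noncomputable def fs {k d : ℕ} (z : E (k + d)) : E k := WithLp.toLp 2 fun a => z (Fin.castAdd d a)

theorem fs_meas {k d : ℕ} : Measurable (fs (k := k) (d := d)) := by
  unfold fs
  fun_prop

theorem fs_J {k d : ℕ} (x : E k) (y : E d) : fs (J x y) = x := by
  ext a
  simp [fs, J]

/-- reduction to the standard splitting -/
theorem red {k d : ℕ} (G : E (k + d) → ℂ) (hG : Measurable G)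
    (e : OrthonormalBasis (Fin (k + d)) ℝ (E (k + d))) (A : Set (E k)) (hA : MeasurableSet A)
    (S : Set (E (k + d))) (hS : MeasurableSet S) (hSA : ∀ ξ ∈ S, fs (e.repr ξ) ∈ A) (p : ℝ) :
    ∫⁻ ξ in S, ‖T G ((2 * Real.pi) • e.repr ξ)‖ₑ ^ p ≤
      ∫⁻ x in A, ∫⁻ y : E d, TJ p G ((2 * Real.pi) • x) ((2 * Real.pi) • y) := by
  have hm0 : Measurable fun z : E (k + d) => ‖T G ((2 * Real.pi) • z)‖ₑ ^ p :=
    ((T_meas G hG).comp (measurable_const_smul _)).enorm.pow_const p
  have hAm : MeasurableSet {z : E (k + d) | fs z ∈ A} := fs_meas hA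
  have hm : Measurable fun z : E (k + d) => {z : E (k + d) | fs z ∈ A}.indicator
      (fun z => ‖T G ((2 * Real.pi) • z)‖ₑ ^ p) z := hm0.indicator hAm
  calc ∫⁻ ξ in S, ‖T G ((2 * Real.pi) • e.repr ξ)‖ₑ ^ p
      ≤ ∫⁻ ξ, {z : E (k + d) | fs z ∈ A}.indicator
          (fun z => ‖T G ((2 * Real.pi) • z)‖ₑ ^ p) (e.repr ξ) := by
        rw [← lintegral_indicator hS]
        refine lintegral_mono fun ξ => ?_
        by_cases hξ : ξ ∈ S
        · rw [indicator_of_mem hξ, indicator_of_mem (show e.repr ξ ∈ {z | fs z ∈ A} from hSA ξ hξ)]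
        · rw [indicator_of_notMem hξ]
          exact zero_le
    _ = ∫⁻ z, {z : E (k + d) | fs z ∈ A}.indicator
          (fun z => ‖T G ((2 * Real.pi) • z)‖ₑ ^ p) z :=
        e.repr.measurePreserving.lintegral_comp hm
    _ = ∫⁻ q : E k × E d, {z : E (k + d) | fs z ∈ A}.indicator
          (fun z => ‖T G ((2 * Real.pi) • z)‖ₑ ^ p) (J q.1 q.2)
          ∂((volume : Measure (E k)).prod (volume : Measure (E d))) :=
        ((J_mp k d).lintegral_comp hm).symm
    _ = ∫⁻ x : E k, ∫⁻ y : E d, {z : E (k + d) | fs z ∈ A}.indicator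
          (fun z => ‖T G ((2 * Real.pi) • z)‖ₑ ^ p) (J x y) :=
        lintegral_prod _ (hm.comp (J_mp k d).measurable).aemeasurable
    _ = ∫⁻ x in A, ∫⁻ y : E d, TJ p G ((2 * Real.pi) • x) ((2 * Real.pi) • y) := by
        rw [← lintegral_indicator hA]
        refine lintegral_congr fun x => ?_
        by_cases hx : x ∈ A
        · rw [indicator_of_mem hx]
          refine lintegral_congr fun y => ?_
          rw [indicator_of_mem (show J x y ∈ {z | fs z ∈ A} by
            show fs (J x y) ∈ A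
            rw [fs_J]; exact hx)]
          unfold TJ
          rw [J_smul]
        · rw [indicator_of_notMem hx]
          refine (lintegral_congr fun y => ?_).trans lintegral_zero
          rw [indicator_of_notMem]
          intro h
          apply hx
          have h' : fs (J x y) ∈ A := h
          rwa [fs_J] at h'

/-- the planar estimate -/
theorem planar (d : ℕ) (hd : 1 ≤ d) (q : ℝ) (hq : 4 < q) : ∃ C : ℝ, 0 < C ∧
    ∀ (G : E (2 + d) → ℂ) (M : ℝ), Measurable G → 0 ≤ M → (∀ z, ‖G z‖ ≤ M) →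
    ∀ (e : OrthonormalBasis (Fin (2 + d)) ℝ (E (2 + d))) (A : Set (E 2)) (S : Set (E (2 + d))),
    MeasurableSet A → MeasurableSet S → (∀ ξ ∈ S, fs (e.repr ξ) ∈ A) →
    ∫⁻ ξ in S, ‖T G ((2 * Real.pi) • e.repr ξ)‖ₑ ^ (2 : ℝ) ≤
      ENNReal.ofReal (C * M ^ 2) * volume A ^ (1 - 2 / q) := by
  obtain ⟨C, hC⟩ := hpair d hd q hq
  have hsf := sg_finite (2 + d)
  have hq0 : 0 < q := by linarith
  set K : ℝ≥0∞ := (C : ℝ≥0∞) ^ (2 / q) * (sg (2 + d) univ) ^ (1 / 2 : ℝ) with hK
  have hKt : K ≠ ∞ := ENNReal.mul_ne_top (ENNReal.rpow_ne_top_of_nonneg (by positivity)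
    ENNReal.coe_ne_top) (ENNReal.rpow_ne_top_of_nonneg (by norm_num) (measure_ne_top _ _))
  refine ⟨K.toReal + 1, by positivity, fun G M hG hM hGM e A S hA hS hSA => ?_⟩
  refine (red G hG e A hA S hS hSA 2).trans ?_
  set H : E 2 → ℝ≥0∞ := fun x => ∫⁻ y : E d, TJ 2 G ((2 * Real.pi) • x) ((2 * Real.pi) • y) with hH
  have hTm := TJ_meas (k := 2) (d := d) 2 G hG
  have hHm : Measurable H := by
    have hpm : Measurable fun p : E 2 × E d =>
        (((2 * Real.pi) • p.1, (2 * Real.pi) • p.2) : E 2 × E d) := by fun_prop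
    have : Measurable fun p : E 2 × E d =>
        Function.uncurry (TJ 2 G) ((2 * Real.pi) • p.1, (2 * Real.pi) • p.2) := hTm.comp hpm
    exact this.lintegral_prod_right'
  have h1 : ∫⁻ x, H x ^ (q / 2) ≤ C * (ENNReal.ofReal M ^ q * (sg (2 + d) univ) ^ (q / 4)) := by
    refine (scale_in (2 * Real.pi) one_le_two_pi (TJ 2 G) hTm (q / 2) (by positivity)).trans ?_
    have h2 := hC G hG ⟨M, hGM⟩
    have e1 : ∀ (x : E 2) (y : E d), TJ 2 G x y = ‖T G (J x y)‖ₑ ^ 2 := by
      intro x y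
      unfold TJ
      rw [← ENNReal.rpow_natCast]
      norm_num
    simp_rw [e1]
    refine h2.trans (mul_le_mul_right ?_ _)
    have h3 : ∫⁻ z, ‖G z‖ₑ ^ 4 ∂(sg (2 + d)) ≤ ENNReal.ofReal M ^ 4 * sg (2 + d) univ := by
      rw [← lintegral_const]
      refine lintegral_mono fun z => ?_
      refine pow_le_pow_left' ?_ 4
      rw [← ofReal_norm]
      exact ENNReal.ofReal_le_ofReal (hGM z)
    refine (ENNReal.rpow_le_rpow h3 (by positivity)).trans (le_of_eq ?_)
    rw [ENNReal.mul_rpow_of_nonneg _ _ (by positivity), ← ENNReal.rpow_natCast,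
      ← ENNReal.rpow_mul]
    congr 2
    push_cast
    ring
  have hc : ((1 - 2 / q)⁻¹).HolderConjugate (q / 2) := by
    rw [Real.holderConjugate_iff]
    have h2 : 2 / q < 1 := by rw [div_lt_one hq0]; linarith
    constructor
    · rw [one_lt_inv₀ (by linarith)]
      have : 0 < 2 / q := by positivity
      linarith
    · rw [inv_inv]
      field_simp
      ring
  have h4 : ∫⁻ x in A, H x ≤ volume A ^ (1 - 2 / q) * (∫⁻ x, H x ^ (q / 2)) ^ (2 / q) := by
    have h5 := ENNReal.lintegral_mul_le_Lp_mul_Lq (volume : Measure (E 2)) hc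
      (f := A.indicator 1) (g := H) (measurable_one.indicator hA).aemeasurable hHm.aemeasurable
    have h6 : ∫⁻ x in A, H x = ∫⁻ x, (A.indicator (1 : E 2 → ℝ≥0∞) * H) x := by
      rw [← lintegral_indicator hA]
      refine lintegral_congr fun x => ?_
      by_cases hx : x ∈ A
      · rw [indicator_of_mem hx, Pi.mul_apply, indicator_of_mem hx, Pi.one_apply, one_mul]
      · rw [indicator_of_notMem hx, Pi.mul_apply, indicator_of_notMem hx, zero_mul]
    have h2 : 2 / q < 1 := by rw [div_lt_one hq0]; linarith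
    have h7 : ∫⁻ x, (A.indicator (1 : E 2 → ℝ≥0∞) x) ^ ((1 - 2 / q)⁻¹) = volume A := by
      rw [← lintegral_indicator_one hA]
      refine lintegral_congr fun x => ?_
      by_cases hx : x ∈ A
      · rw [indicator_of_mem hx, Pi.one_apply, ENNReal.one_rpow]
      · rw [indicator_of_notMem hx, ENNReal.zero_rpow_of_pos (inv_pos.2 (by linarith))]
    rw [h6]
    refine h5.trans (le_of_eq ?_)
    rw [h7, one_div, inv_inv]
    congr 2
    rw [one_div_div]
  refine h4.trans ?_
  have h8 : (∫⁻ x, H x ^ (q / 2)) ^ (2 / q) ≤ K * ENNReal.ofReal M ^ (2 : ℝ) := by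
    refine (ENNReal.rpow_le_rpow h1 (by positivity)).trans (le_of_eq ?_)
    rw [ENNReal.mul_rpow_of_nonneg _ _ (by positivity), ENNReal.mul_rpow_of_nonneg _ _ (by positivity),
      ← ENNReal.rpow_mul, ← ENNReal.rpow_mul]
    have e1 : q * (2 / q) = 2 := by field_simp
    have e2 : q / 4 * (2 / q) = 1 / 2 := by field_simp; norm_num
    rw [e1, e2, hK]
    ring
  calc volume A ^ (1 - 2 / q) * (∫⁻ x, H x ^ (q / 2)) ^ (2 / q)
      ≤ volume A ^ (1 - 2 / q) * (K * ENNReal.ofReal M ^ (2 : ℝ)) := mul_le_mul_right h8 _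
    _ ≤ volume A ^ (1 - 2 / q) * ENNReal.ofReal ((K.toReal + 1) * M ^ 2) := by
        refine mul_le_mul_right ?_ _
        rw [ENNReal.ofReal_mul (by positivity), ENNReal.ofReal_pow hM, ← ENNReal.rpow_natCast]
        refine mul_le_mul' ?_ (le_of_eq (by norm_num))
        rw [ENNReal.ofReal_add (by positivity) (by norm_num), ENNReal.ofReal_toReal hKt]
        exact le_self_add
    _ = _ := mul_comm _ _

/-- the linear estimate -/
theorem linear (d : ℕ) (hd : 2 ≤ d) (r : ℝ) (hr : 2 < r) : ∃ C : ℝ, 0 < C ∧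
    ∀ (G : E (1 + d) → ℂ) (M : ℝ), Measurable G → 0 ≤ M → (∀ z, ‖G z‖ ≤ M) →
    ∀ (e : OrthonormalBasis (Fin (1 + d)) ℝ (E (1 + d))) (A : Set (E 1)) (S : Set (E (1 + d))),
    MeasurableSet A → MeasurableSet S → (∀ ξ ∈ S, fs (e.repr ξ) ∈ A) →
    ∫⁻ ξ in S, ‖T G ((2 * Real.pi) • e.repr ξ)‖ₑ ^ (2 : ℝ) ≤
      ENNReal.ofReal (C * M ^ 2) * (volume A ^ (2 / r) * volume S ^ (1 - 2 / r)) := by
  obtain ⟨C, hC⟩ := hsing d hd r hr
  have hr0 : 0 < r := by linarith
  set K : ℝ≥0∞ := (C : ℝ≥0∞) ^ (2 / r) with hK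
  have hKt : K ≠ ∞ := ENNReal.rpow_ne_top_of_nonneg (by positivity) ENNReal.coe_ne_top
  refine ⟨K.toReal + 1, by positivity, fun G M hG hM hGM e A S hA hS hSA => ?_⟩
  have hTm := TJ_meas (k := 1) (d := d) r G hG
  have h1 : ∫⁻ ξ in S, ‖T G ((2 * Real.pi) • e.repr ξ)‖ₑ ^ r ≤
      volume A * (C * ENNReal.ofReal M ^ r) := by
    refine (red G hG e A hA S hS hSA r).trans ?_
    rw [mul_comm (volume A), ← setLIntegral_const]
    refine lintegral_mono fun x => ?_
    have hz : ∀ z : E 1, ∫⁻ y : E d, TJ r G z ((2 * Real.pi) • y) ≤ C * ENNReal.ofReal M ^ r := by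
      intro z
      have hpm : Measurable fun y : E d => ((z, y) : E 1 × E d) := by fun_prop
      have h0 : Measurable fun y : E d => Function.uncurry (TJ r G) (z, y) := hTm.comp hpm
      have h2 := scale (2 * Real.pi) one_le_two_pi (fun y : E d => TJ r G z y) h0
      exact h2.trans (hC G hG M hGM z)
    exact hz _
  have hm0 : Measurable fun ξ : E (1 + d) => ‖T G ((2 * Real.pi) • e.repr ξ)‖ₑ :=
    (((T_meas G hG).comp (measurable_const_smul _)).comp e.repr.continuous.measurable).enorm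
  have h2r : 2 / r < 1 := by rw [div_lt_one hr0]; linarith
  have hc : (r / 2).HolderConjugate ((1 - 2 / r)⁻¹) := by
    rw [Real.holderConjugate_iff]
    constructor
    · linarith
    · rw [inv_inv]
      field_simp
      ring
  have h3 := ENNReal.lintegral_mul_le_Lp_mul_Lq (volume.restrict S) hc
    (f := fun ξ => ‖T G ((2 * Real.pi) • e.repr ξ)‖ₑ ^ (2 : ℝ)) (g := fun _ => 1)
    (hm0.pow_const _).aemeasurable aemeasurable_const
  simp only [Pi.mul_apply, mul_one, ENNReal.one_rpow, lintegral_one, Measure.restrict_apply_univ]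
    at h3
  refine h3.trans ?_
  have e1 : ∀ ξ : E (1 + d), (‖T G ((2 * Real.pi) • e.repr ξ)‖ₑ ^ (2 : ℝ)) ^ (r / 2) =
      ‖T G ((2 * Real.pi) • e.repr ξ)‖ₑ ^ r := by
    intro ξ
    rw [← ENNReal.rpow_mul]
    congr 1
    ring
  simp_rw [e1]
  rw [one_div_div, one_div, inv_inv]
  have h5 : (∫⁻ ξ in S, ‖T G ((2 * Real.pi) • e.repr ξ)‖ₑ ^ r) ^ (2 / r) ≤
      volume A ^ (2 / r) * (K * ENNReal.ofReal M ^ (2 : ℝ)) := by
    refine (ENNReal.rpow_le_rpow h1 (by positivity)).trans (le_of_eq ?_)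
    rw [ENNReal.mul_rpow_of_nonneg _ _ (by positivity), ENNReal.mul_rpow_of_nonneg _ _ (by positivity),
      ← ENNReal.rpow_mul]
    have e1 : r * (2 / r) = 2 := by field_simp
    rw [e1]
  calc (∫⁻ ξ in S, ‖T G ((2 * Real.pi) • e.repr ξ)‖ₑ ^ r) ^ (2 / r) * volume S ^ (1 - 2 / r)
      ≤ (volume A ^ (2 / r) * (K * ENNReal.ofReal M ^ (2 : ℝ))) * volume S ^ (1 - 2 / r) :=
        mul_le_mul_left h5 _
    _ = (K * ENNReal.ofReal M ^ (2 : ℝ)) * (volume A ^ (2 / r) * volume S ^ (1 - 2 / r)) := by ring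
    _ ≤ ENNReal.ofReal ((K.toReal + 1) * M ^ 2) *
          (volume A ^ (2 / r) * volume S ^ (1 - 2 / r)) := by
        refine mul_le_mul_left ?_ _
        rw [ENNReal.ofReal_mul (by positivity), ENNReal.ofReal_pow hM, ← ENNReal.rpow_natCast]
        refine mul_le_mul' ?_ (le_of_eq (by norm_num))
        rw [ENNReal.ofReal_add (by positivity) (by norm_num), ENNReal.ofReal_toReal hKt]
        exact le_self_add

end Pool.Agent.H972BL
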