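import Mathlib
import Pool.Agent.helper972_bl.S1
set_option autoImplicit false

/-! The sphere satisfies the cylinder and slab estimates. -/

namespace Pool.Agent.H972BL

open MeasureTheory Set Filter Topology Metric
open scoped ENNReal NNReal RealInnerProductSpace
open Pool.Agent.H789R2.FR (sg T sg_finite sg_inv)
open Pool.Agent.TH278.FN (T_meas T_le)
open Pool.Agent.R412.SP (ft ft_eqT exists_G sigma)

theorem repG {n : ℕ} (e : OrthonormalBasis (Fin n) ℝ (E n)) (f : sphere (0 : E n) 1 → ℂ)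
    (hf : AEStronglyMeasurable f (sigma n)) (M : ℝ) (hM0 : 0 ≤ M)
    (hM : ∀ᵐ x ∂(sigma n), ‖f x‖ ≤ M) :
    ∃ G : E n → ℂ, Measurable G ∧ (∀ z, ‖G z‖ ≤ M) ∧
      ∀ ξ, ft f ξ = T G ((2 * Real.pi) • e.repr ξ) := by
  obtain ⟨G0, hG0, hfG0, -, -⟩ := exists_G e f hf
  set G : E n → ℂ := {z | ‖G0 z‖ ≤ M}.indicator G0 with hGdef
  have hG : Measurable G := hG0.indicator (measurableSet_le hG0.norm measurable_const)
  have hGM : ∀ z, ‖G z‖ ≤ M := by
    intro z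
    by_cases h : z ∈ {z | ‖G0 z‖ ≤ M}
    · rw [hGdef, indicator_of_mem h]; exact h
    · rw [hGdef, indicator_of_notMem h, norm_zero]; exact hM0
  have hfG : ∀ᵐ x ∂(sigma n), f x = G (e.repr x) := by
    filter_upwards [hfG0, hM] with x hx hx2
    rw [hGdef, indicator_of_mem (show e.repr (x : E n) ∈ {z | ‖G0 z‖ ≤ M} by
      simp only [mem_ofPred_eq]
      rw [← hx]
      exact hx2)]
    exact hx
  exact ⟨G, hG, hGM, fun ξ => ft_eqT e f G hG hfG ξ⟩

/-- an orthonormal basis with two given vectors -/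
theorem exists_frameG {ι V : Type*} [Fintype ι] [DecidableEq ι] [NormedAddCommGroup V]
    [InnerProductSpace ℝ V] [FiniteDimensional ℝ V] (hcard : Module.finrank ℝ V = Fintype.card ι)
    (i₀ i₁ : ι) (h01 : i₁ ≠ i₀) (v w : V) (hv : ‖v‖ = 1) (hw : ‖w‖ = 1) (hvw : ⟪v, w⟫ = 0) :
    ∃ e : OrthonormalBasis ι ℝ V, e i₀ = v ∧ e i₁ = w := by
  set v' : ι → V := fun i => if i = i₀ then v else w with hv'
  have horth : Orthonormal ℝ (({i₀, i₁} : Set ι).domRestrict v') := by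
    constructor
    · rintro ⟨i, hi⟩
      show ‖v' i‖ = 1
      rcases hi with hi | hi
      · rw [hv', hi]; simpa using hv
      · have hi' : i = i₁ := hi
        rw [hv', hi']; simpa [h01] using hw
    · rintro ⟨i, hi⟩ ⟨j, hj⟩ hij
      show ⟪v' i, v' j⟫ = 0
      have hij' : i ≠ j := fun h => hij (Subtype.ext h)
      rcases hi with hi | hi
      · rcases hj with hj | hj
        · exact absurd (hi.trans hj.symm) hij'
        · have hj' : j = i₁ := hj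
          rw [hv', hi, hj']; simpa [h01] using hvw
      · have hi' : i = i₁ := hi
        rcases hj with hj | hj
        · rw [hv', hi', hj]
          rw [real_inner_comm] at hvw
          simpa [h01] using hvw
        · have hj' : j = i₁ := hj
          exact absurd (hi'.trans hj'.symm) hij'
  obtain ⟨b, hb⟩ := horth.exists_orthonormalBasis_extension_of_card_eq hcard (v := v')
  refine ⟨b, ?_, ?_⟩
  · rw [hb i₀ (by simp), hv']
    simp
  · rw [hb i₁ (by simp), hv']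
    simp [h01]

/-- an orthonormal basis with a given vector -/
theorem exists_frameH {ι V : Type*} [Fintype ι] [DecidableEq ι] [NormedAddCommGroup V]
    [InnerProductSpace ℝ V] [FiniteDimensional ℝ V] (hcard : Module.finrank ℝ V = Fintype.card ι)
    (i₀ : ι) (v : V) (hv : ‖v‖ = 1) : ∃ e : OrthonormalBasis ι ℝ V, e i₀ = v := by
  have horth : Orthonormal ℝ (({i₀} : Set ι).domRestrict fun _ => v) := by
    constructor
    · rintro ⟨i, hi⟩
      exact hv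
    · rintro ⟨i, hi⟩ ⟨j, hj⟩ hij
      exfalso
      apply hij
      have h1 : i = i₀ := hi
      have h2 : j = i₀ := hj
      exact Subtype.ext (h1.trans h2.symm)
  obtain ⟨b, hb⟩ := horth.exists_orthonormalBasis_extension_of_card_eq hcard (v := fun _ => v)
  exact ⟨b, hb i₀ (by simp)⟩

theorem planarF (n d : ℕ) (hnd : n = 2 + d) (hd : 1 ≤ d) (τ : ℝ) (h1 : 1 / 2 < τ) (h2 : τ < 1) :
    ∃ C : ℝ, 0 < C ∧ ∀ (f : sphere (0 : E n) 1 → ℂ) (M : ℝ), AEStronglyMeasurable f (sigma n) →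
    0 ≤ M → (∀ᵐ x ∂(sigma n), ‖f x‖ ≤ M) → ∀ v w : E n, ‖v‖ = 1 → ‖w‖ = 1 → ⟪v, w⟫ = 0 →
    ∀ (A : Set (ℝ × ℝ)) (S : Set (E n)), MeasurableSet A → MeasurableSet S →
    (∀ ξ ∈ S, (⟪v, ξ⟫, ⟪w, ξ⟫) ∈ A) →
    ∫⁻ ξ in S, ‖ft f ξ‖ₑ ^ 2 ≤ ENNReal.ofReal (C * M ^ 2) * volume A ^ τ := by
  subst hnd
  have hq : (4 : ℝ) < 2 / (1 - τ) := by
    rw [lt_div_iff₀ (by linarith)]
    linarith
  obtain ⟨C, hC, h⟩ := planar d hd _ hq
  refine ⟨C, hC, fun f M hf hM hfM v w hv hw hvw A S hA hS hSA => ?_⟩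
  have hne : (Fin.castAdd d 1 : Fin (2 + d)) ≠ Fin.castAdd d 0 := by
    intro h0
    have := congrArg Fin.val h0
    simp at this
  obtain ⟨e, he0, he1⟩ := exists_frameG (ι := Fin (2 + d)) (V := E (2 + d)) (by simp)
    (Fin.castAdd d 0) (Fin.castAdd d 1) hne v w hv hw hvw
  obtain ⟨G, hG, hGM, hfG⟩ := repG e f hf M hM hfM
  set A' : Set (E 2) := {x | (x 0, x 1) ∈ A} with hA'
  have hmp : MeasurePreserving (fun x : E 2 => (x 0, x 1)) volume volume :=
    (volume_preserving_finTwoArrow ℝ).comp (PiLp.volume_preserving_ofLp (Fin 2))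
  have hA'm : MeasurableSet A' := hmp.measurable hA
  have hA'v : volume A' = volume A := hmp.measure_preimage hA.nullMeasurableSet
  have h3 := h G M hG hM hGM e A' S hA'm hS (fun ξ hξ => by
    show ((fs (e.repr ξ)) 0, (fs (e.repr ξ)) 1) ∈ A
    have h4 : (fs (e.repr ξ)) 0 = ⟪v, ξ⟫ := by
      rw [← he0, ← e.repr_apply_apply]
      rfl
    have h5 : (fs (e.repr ξ)) 1 = ⟪w, ξ⟫ := by
      rw [← he1, ← e.repr_apply_apply]
      rfl
    rw [h4, h5]
    exact hSA ξ hξ)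
  rw [hA'v] at h3
  have e1 : 1 - 2 / (2 / (1 - τ)) = τ := by
    have : 1 - τ ≠ 0 := by linarith
    field_simp
    ring
  rw [e1] at h3
  refine le_trans (le_of_eq ?_) h3
  refine lintegral_congr fun ξ => ?_
  rw [hfG, ← ENNReal.rpow_natCast]
  norm_num

theorem linearF (n d : ℕ) (hnd : n = 1 + d) (hd : 2 ≤ d) (ε : ℝ) (h1 : 0 < ε) (h2 : ε < 1) :
    ∃ C : ℝ, 0 < C ∧ ∀ (f : sphere (0 : E n) 1 → ℂ) (M : ℝ), AEStronglyMeasurable f (sigma n) →
    0 ≤ M → (∀ᵐ x ∂(sigma n), ‖f x‖ ≤ M) → ∀ v : E n, ‖v‖ = 1 →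
    ∀ (B : Set ℝ) (S : Set (E n)), MeasurableSet B → MeasurableSet S →
    (∀ ξ ∈ S, ⟪v, ξ⟫ ∈ B) →
    ∫⁻ ξ in S, ‖ft f ξ‖ₑ ^ 2 ≤ ENNReal.ofReal (C * M ^ 2) *
      (volume B ^ (1 - ε) * volume S ^ ε) := by
  subst hnd
  have hr : (2 : ℝ) < 2 / (1 - ε) := by
    rw [lt_div_iff₀ (by linarith)]
    linarith
  obtain ⟨C, hC, h⟩ := linear d hd _ hr
  refine ⟨C, hC, fun f M hf hM hfM v hv B S hB hS hSB => ?_⟩
  obtain ⟨e, he0⟩ := exists_frameH (ι := Fin (1 + d)) (V := E (1 + d)) (by simp)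
    (Fin.castAdd d 0) v hv
  obtain ⟨G, hG, hGM, hfG⟩ := repG e f hf M hM hfM
  set B' : Set (E 1) := {x | x 0 ∈ B} with hB'
  have hmp : MeasurePreserving (fun x : E 1 => x 0) volume volume :=
    (volume_preserving_funUnique (Fin 1) ℝ).comp (PiLp.volume_preserving_ofLp (Fin 1))
  have hB'm : MeasurableSet B' := hmp.measurable hB
  have hB'v : volume B' = volume B := hmp.measure_preimage hB.nullMeasurableSet
  have h3 := h G M hG hM hGM e B' S hB'm hS (fun ξ hξ => by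
    show (fs (e.repr ξ)) 0 ∈ B
    have h4 : (fs (e.repr ξ)) 0 = ⟪v, ξ⟫ := by
      rw [← he0, ← e.repr_apply_apply]
      rfl
    rw [h4]
    exact hSB ξ hξ)
  rw [hB'v] at h3
  have e1 : 2 / (2 / (1 - ε)) = 1 - ε := by
    have : 1 - ε ≠ 0 := by linarith
    field_simp
  have e2 : 1 - (1 - ε) = ε := by ring
  rw [e1, e2] at h3
  refine le_trans (le_of_eq ?_) h3
  refine lintegral_congr fun ξ => ?_
  rw [hfG, ← ENNReal.rpow_natCast]
  norm_num

/-- the class of the Fourier transforms of bounded densities on the sphere -/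
def Sph (N : ℕ) (F : E (N + 2) → ℝ≥0∞) (μ : ℝ) : Prop :=
  ∃ (M : ℝ) (f : sphere (0 : E (N + 2)) 1 → ℂ), 0 ≤ M ∧ μ = M ^ 2 ∧
    AEStronglyMeasurable f (sigma (N + 2)) ∧ (∀ᵐ x ∂(sigma (N + 2)), ‖f x‖ ≤ M) ∧
    F = fun ξ => ‖ft f ξ‖ₑ

theorem sph_good (N : ℕ) (hN : 1 ≤ N) : Good (Sph N) where
  meas := by
    rintro F μ ⟨M, f, hM, -, hf, hfM, rfl⟩
    obtain ⟨G, hG, hGM, hfG⟩ := repG (EuclideanSpace.basisFun (Fin (N + 2)) ℝ) f hf M hM hfM
    have : (fun ξ => ‖ft f ξ‖ₑ) = fun ξ => ‖T G ((2 * Real.pi) •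
        (EuclideanSpace.basisFun (Fin (N + 2)) ℝ).repr ξ)‖ₑ := by
      ext ξ; rw [hfG]
    rw [this]
    exact (((T_meas G hG).comp (measurable_const_smul _)).comp
      (EuclideanSpace.basisFun (Fin (N + 2)) ℝ).repr.continuous.measurable).enorm
  nonneg := by
    rintro F μ ⟨M, f, hM, rfl, -⟩
    positivity
  triv := by
    have := sg_finite (N + 2)
    refine ⟨(sg (N + 2)).real univ ^ 2 + 1, by positivity, ?_⟩
    rintro F μ ⟨M, f, hM, rfl, hf, hfM, rfl⟩ ξ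
    obtain ⟨G, hG, hGM, hfG⟩ := repG (EuclideanSpace.basisFun (Fin (N + 2)) ℝ) f hf M hM hfM
    have h1 := T_le G M hGM ((2 * Real.pi) • (EuclideanSpace.basisFun (Fin (N + 2)) ℝ).repr ξ)
    simp only
    rw [hfG, ← ofReal_norm, ← ENNReal.ofReal_pow (norm_nonneg _)]
    refine ENNReal.ofReal_le_ofReal ?_
    calc _ ≤ (M * (sg (N + 2)).real univ) ^ 2 := pow_le_pow_left₀ (norm_nonneg _) h1 2
      _ ≤ _ := by nlinarith [sq_nonneg M]
  cyl := by
    intro τ h1 h2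
    obtain ⟨C, hC, h⟩ := planarF (N + 2) N (by omega) hN τ h1 h2
    refine ⟨C, hC, ?_⟩
    rintro F μ ⟨M, f, hM, rfl, hf, hfM, rfl⟩ v w hv hw hvw A S hA hS _ hSA
    exact h f M hf hM hfM v w hv hw hvw A S hA hS hSA
  slab := by
    intro ε h1 h2
    obtain ⟨C, hC, h⟩ := linearF (N + 2) (N + 1) (by omega) (by omega) ε h1 (by linarith)
    refine ⟨C, hC, ?_⟩
    rintro F μ ⟨M, f, hM, rfl, hf, hfM, rfl⟩ v hv B S hB hS hSB b V hb hV hBb hSV
    refine (h f M hf hM hfM v hv B S hB hS hSB).trans ?_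
    rw [ENNReal.ofReal_mul (p := C * M ^ 2) (by positivity),
      ENNReal.ofReal_mul (p := b ^ (1 - ε)) (by positivity), hBb,
      ← ENNReal.ofReal_rpow_of_pos hb, ← ENNReal.ofReal_rpow_of_pos hV]
    exact mul_le_mul_right (mul_le_mul_right (ENNReal.rpow_le_rpow hSV h1.le) _) _

end Pool.Agent.H972BL
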