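import Mathlib
import Pool.Agent.helper972_bl.G6
import Pool.Agent.helper972_bl.S2
set_option autoImplicit false

/-! The class of the Fourier transforms of bounded densities on the sphere. -/

namespace Pool.Agent.H972BL

open MeasureTheory Set Filter Topology Metric
open scoped ENNReal NNReal RealInnerProductSpace
open Pool.Agent.R412.SP (ft sigma)

theorem sph_mem (N : ℕ) (f : sphere (0 : E (N + 2)) 1 → ℂ) (hf : MemLp f ∞ (sigma (N + 2))) :
    Sph N (fun x => ‖ft f x‖ₑ) ((eLpNorm f ∞ (sigma (N + 2))).toReal ^ 2) := by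
  refine ⟨(eLpNorm f ∞ (sigma (N + 2))).toReal, f, ENNReal.toReal_nonneg, rfl, hf.1, ?_, rfl⟩
  have h2 := hf.2.ne
  rw [eLpNorm_exponent_top] at h2
  filter_upwards [enorm_ae_le_eLpNormEssSup f (sigma (N + 2))] with x hx
  rw [← toReal_enorm, eLpNorm_exponent_top]
  exact ENNReal.toReal_mono h2 hx

theorem sph_norm (N : ℕ) (f : sphere (0 : E (N + 2)) 1 → ℂ) (hf : MemLp f ∞ (sigma (N + 2))) :
    ENNReal.ofReal ((eLpNorm f ∞ (sigma (N + 2))).toReal ^ 2) =
      eLpNorm f ∞ (sigma (N + 2)) ^ 2 := by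
  rw [ENNReal.ofReal_pow ENNReal.toReal_nonneg, ENNReal.ofReal_toReal hf.2.ne]

end Pool.Agent.H972BL
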