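import Mathlib
import Pool.Agent.helper972_bl.G6
set_option autoImplicit false

/-! The class of the extensions of bounded functions on the cube from the paraboloid. -/

namespace Pool.Agent.H972BL

open MeasureTheory Set Filter Topology Metric
open scoped ENNReal NNReal RealInnerProductSpace
open Pool.Agent.R412.RT (Ex Ex_meas)
open Pool.Agent.H972PB (NC Ex_sup f_int cyl slabT cube ext ext_eq rep)

/-- the class -/
def Par (N : ℕ) (F : E (N + 2) → ℝ≥0∞) (μ : ℝ) : Prop :=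
  ∃ (M : ℝ) (f : E (N + 1) → ℂ), 0 ≤ M ∧ μ = M ^ 2 ∧ NC M f ∧ F = fun ξ => ‖Ex f ξ‖ₑ

theorem par_good (N : ℕ) : Good (Par N) where
  meas := by
    rintro F μ ⟨M, f, hM, -, hf, rfl⟩
    exact (Ex_meas f hf.integrable.1).enorm
  nonneg := by
    rintro F μ ⟨M, f, hM, rfl, -⟩
    positivity
  triv := by
    refine ⟨4 ^ (N + 1), by positivity, ?_⟩
    rintro F μ ⟨M, f, hM, rfl, hf, rfl⟩ ξ
    have h1 := (Ex_sup f ξ).trans (f_int hf)
    simp only
    refine (pow_le_pow_left' h1 2).trans (le_of_eq ?_)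
    rw [ENNReal.ofReal_mul (by positivity), ENNReal.ofReal_pow hM,
      ENNReal.ofReal_pow (by norm_num), ENNReal.ofReal_ofNat, mul_pow,
      mul_comm (ENNReal.ofReal M ^ 2), ← pow_mul, mul_comm (N + 1) 2, pow_mul]
    norm_num
  cyl := by
    intro τ h1 h2
    obtain ⟨C, hC, h⟩ := cyl N τ h1 h2
    refine ⟨C, hC, ?_⟩
    rintro F μ ⟨M, f, hM, rfl, hf, rfl⟩ v w hv hw hvw A S hA hS hAt hSA
    exact h v w hv hw hvw M f hM hf A S hA hS hAt hSA
  slab := by
    intro ε h1 h2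
    obtain ⟨C, hC, h⟩ := slabT N (2 * ε) (by linarith) (by linarith)
    refine ⟨C, hC, ?_⟩
    rintro F μ ⟨M, f, hM, rfl, hf, rfl⟩ v hv B S hB hS hSB b V hb hV hBb hSV
    have e1 : 2 * ε / 2 = ε := by ring
    have h3 := h v hv M f hM hf B S hB hS hSB b V hb hV hBb hSV
    rw [e1] at h3
    exact h3

/-- the class contains the extensions of bounded functions -/
theorem par_mem (N : ℕ) (f : E (N + 1) → ℂ) (hf : MemLp f ∞ (volume.restrict (cube (N + 1)))) :
    Par N (fun x => ‖ext f x‖ₑ)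
      ((eLpNorm f ∞ (volume.restrict (cube (N + 1)))).toReal ^ 2) := by
  obtain ⟨g, hg, hgE⟩ := rep f hf
  refine ⟨_, g, ENNReal.toReal_nonneg, rfl, hg, ?_⟩
  ext x
  rw [ext_eq, hgE]

theorem par_norm (N : ℕ) (f : E (N + 1) → ℂ) (hf : MemLp f ∞ (volume.restrict (cube (N + 1)))) :
    ENNReal.ofReal ((eLpNorm f ∞ (volume.restrict (cube (N + 1)))).toReal ^ 2) =
      eLpNorm f ∞ (volume.restrict (cube (N + 1))) ^ 2 := by
  rw [ENNReal.ofReal_pow ENNReal.toReal_nonneg, ENNReal.ofReal_toReal hf.2.ne]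

end Pool.Agent.H972BL
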